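import Pool.Agent.Y700.Defs

/-!
The points with non-singular reduction form a subgroup.
-/

set_option autoImplicit false
set_option linter.all false

namespace Pool.Agent.Y809.BSD14

open scoped Classical

section norm

variable {K : Type} [NormedField K] [IsUltrametricDist K]

theorem nadd {a b : K} (ha : ‖a‖ ≤ 1) (hb : ‖b‖ ≤ 1) : ‖a + b‖ ≤ 1 :=
  (IsUltrametricDist.norm_add_le_max a b).trans (max_le ha hb)

theorem nsub {a b : K} (ha : ‖a‖ ≤ 1) (hb : ‖b‖ ≤ 1) : ‖a - b‖ ≤ 1 := by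
  rw [sub_eq_add_neg]
  exact nadd ha (by rwa [norm_neg])

theorem nmul {a b : K} (ha : ‖a‖ ≤ 1) (hb : ‖b‖ ≤ 1) : ‖a * b‖ ≤ 1 := by
  rw [norm_mul]
  exact mul_le_one₀ ha (norm_nonneg _) hb

theorem npow {a : K} (ha : ‖a‖ ≤ 1) (n : ℕ) : ‖a ^ n‖ ≤ 1 := by
  rw [norm_pow]
  exact pow_le_one₀ (norm_nonneg _) ha

theorem nneg {a : K} (ha : ‖a‖ ≤ 1) : ‖-a‖ ≤ 1 := by rwa [norm_neg]

theorem ladd {a b : K} (ha : ‖a‖ < 1) (hb : ‖b‖ < 1) : ‖a + b‖ < 1 :=
  (IsUltrametricDist.norm_add_le_max a b).trans_lt (max_lt ha hb)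

theorem lneg {a : K} (ha : ‖a‖ < 1) : ‖-a‖ < 1 := by rwa [norm_neg]

theorem lsub {a b : K} (ha : ‖a‖ < 1) (hb : ‖b‖ < 1) : ‖a - b‖ < 1 := by
  rw [sub_eq_add_neg]
  exact ladd ha (lneg hb)

theorem lmul {a b : K} (ha : ‖a‖ ≤ 1) (hb : ‖b‖ < 1) : ‖a * b‖ < 1 := by
  rw [norm_mul]
  calc ‖a‖ * ‖b‖ ≤ 1 * ‖b‖ := mul_le_mul_of_nonneg_right ha (norm_nonneg _)
    _ < 1 := by rwa [one_mul]

theorem lmul' {a b : K} (ha : ‖a‖ < 1) (hb : ‖b‖ ≤ 1) : ‖a * b‖ < 1 := by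
  rw [mul_comm]
  exact lmul hb ha

theorem nnat (n : ℕ) : ‖(n : K)‖ ≤ 1 := IsUltrametricDist.norm_natCast_le_one K n

theorem n2 : ‖(2 : K)‖ ≤ 1 := by exact_mod_cast nnat (K := K) 2

theorem n3 : ‖(3 : K)‖ ≤ 1 := by exact_mod_cast nnat (K := K) 3

/-- if the sum of two is dominated -/
theorem norm_eq_of_lt {a b : K} (h : ‖b‖ < ‖a‖) : ‖a + b‖ = ‖a‖ :=
  IsUltrametricDist.norm_add_eq_max_of_norm_ne_norm (ne_of_gt h) |>.trans (max_eq_left h.le)

theorem root_int {x s q : K} (h : x * x = s * x - q) (hs : ‖s‖ ≤ 1) (hq : ‖q‖ ≤ 1) : ‖x‖ ≤ 1 := by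
  by_contra hx
  rw [not_le] at hx
  have h1 := congrArg norm h
  rw [norm_mul] at h1
  have h2 : ‖s * x - q‖ ≤ ‖x‖ := by
    rw [sub_eq_add_neg]
    refine (IsUltrametricDist.norm_add_le_max _ _).trans (max_le ?_ ?_)
    · rw [norm_mul]
      calc ‖s‖ * ‖x‖ ≤ 1 * ‖x‖ := mul_le_mul_of_nonneg_right hs (norm_nonneg _)
        _ = ‖x‖ := one_mul _
    · rw [norm_neg]
      exact hq.trans hx.le
  nlinarith [norm_nonneg x]

/-- integral with singular reduction -/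
structure Sg (a1 a2 a3 a4 x y : K) : Prop where
  x1 : ‖x‖ ≤ 1
  y1 : ‖y‖ ≤ 1
  fx : ‖a1 * y - (3 * x ^ 2 + 2 * a2 * x + a4)‖ < 1
  fy : ‖2 * y + a1 * x + a3‖ < 1

variable {a1 a2 a3 a4 a6 : K} (h1 : ‖a1‖ ≤ 1) (h2 : ‖a2‖ ≤ 1) (h3 : ‖a3‖ ≤ 1) (h4 : ‖a4‖ ≤ 1)

include h1 h2 in
theorem Sg.close {x y x' y' : K} (h : Sg a1 a2 a3 a4 x y) (hx : ‖x' - x‖ < 1) (hy : ‖y' - y‖ < 1) :
    Sg a1 a2 a3 a4 x' y' := by
  have hx' : ‖x'‖ ≤ 1 := by
    have : x' = (x' - x) + x := by ring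
    rw [this]
    exact nadd hx.le h.x1
  have hy' : ‖y'‖ ≤ 1 := by
    have : y' = (y' - y) + y := by ring
    rw [this]
    exact nadd hy.le h.y1
  refine ⟨hx', hy', ?_, ?_⟩
  · have e : a1 * y' - (3 * x' ^ 2 + 2 * a2 * x' + a4) =
        (a1 * y - (3 * x ^ 2 + 2 * a2 * x + a4)) + (a1 * (y' - y) -
          (3 * (x' + x) + 2 * a2) * (x' - x)) := by ring
    rw [e]
    exact ladd h.fx (lsub (lmul h1 hy) (lmul (nadd (nmul n3 (nadd hx' h.x1)) (nmul n2 h2)) hx))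
  · have e : 2 * y' + a1 * x' + a3 = (2 * y + a1 * x + a3) + (2 * (y' - y) + a1 * (x' - x)) := by
      ring
    rw [e]
    exact ladd h.fy (ladd (lmul n2 hy) (lmul h1 hx))

include h1 h2 h3 h4 in
/-- The main argument. -/
theorem core {x1 y1 x2 y2 x3 y3 l c : K} (e1 : y1 = l * x1 + c) (e2 : y2 = l * x2 + c)
    (e3 : y3 = l * x3 + c) (s1 : x1 + x2 + x3 = l ^ 2 + a1 * l - a2)
    (s2 : x1 * x2 + x1 * x3 + x2 * x3 = -(2 * l * c + a1 * c + a3 * l - a4))
    (hR : Sg a1 a2 a3 a4 x3 y3) : Sg a1 a2 a3 a4 x1 y1 ∨ Sg a1 a2 a3 a4 x2 y2 := by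
  rcases le_or_gt ‖l‖ 1 with hl | hl
  · have hc : ‖c‖ ≤ 1 := by
      have : c = y3 - l * x3 := by rw [e3]; ring
      rw [this]
      exact nsub hR.y1 (nmul hl hR.x1)
    have hs : ‖x1 + x2‖ ≤ 1 := by
      have : x1 + x2 = l ^ 2 + a1 * l - a2 - x3 := by linear_combination s1
      rw [this]
      exact nsub (nsub (nadd (npow hl 2) (nmul h1 hl)) h2) hR.x1
    have hq : ‖x1 * x2‖ ≤ 1 := by
      have : x1 * x2 = -(2 * l * c + a1 * c + a3 * l - a4) - x3 * (x1 + x2) := by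
        linear_combination s2
      rw [this]
      exact nsub (nneg (nsub (nadd (nadd (nmul (nmul n2 hl) hc) (nmul h1 hc)) (nmul h3 hl)) h4))
        (nmul hR.x1 hs)
    have hx1 : ‖x1‖ ≤ 1 := root_int (s := x1 + x2) (q := x1 * x2) (by ring) hs hq
    have hx2 : ‖x2‖ ≤ 1 := root_int (s := x1 + x2) (q := x1 * x2) (by ring) hs hq
    have hprod : (x3 - x1) * (x3 - x2) = -((a1 * y3 - (3 * x3 ^ 2 + 2 * a2 * x3 + a4)) +
        l * (2 * y3 + a1 * x3 + a3)) := by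
      rw [e3]
      linear_combination (-2 * x3) * s1 + s2
    have hlt : ‖x3 - x1‖ * ‖x3 - x2‖ < 1 := by
      rw [← norm_mul, hprod]
      exact lneg (ladd hR.fx (lmul hl hR.fy))
    have hor : ‖x3 - x1‖ < 1 ∨ ‖x3 - x2‖ < 1 := by
      by_contra hcon
      rw [not_or, not_lt, not_lt] at hcon
      nlinarith [hcon.1, hcon.2]
    rcases hor with h | h
    · left
      have hx : ‖x1 - x3‖ < 1 := by rw [← norm_neg, neg_sub]; exact h
      refine hR.close h1 h2 hx ?_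
      have : y1 - y3 = l * (x1 - x3) := by rw [e1, e3]; ring
      rw [this]
      exact lmul hl hx
    · right
      have hx : ‖x2 - x3‖ < 1 := by rw [← norm_neg, neg_sub]; exact h
      refine hR.close h1 h2 hx ?_
      have : y2 - y3 = l * (x2 - x3) := by rw [e2, e3]; ring
      rw [this]
      exact lmul hl hx
  · have hl0 : l ≠ 0 := by
      rintro rfl
      rw [norm_zero] at hl
      linarith
    obtain ⟨mu, hmu⟩ : ∃ mu : K, l * mu = 1 := ⟨l⁻¹, mul_inv_cancel₀ hl0⟩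
    have hm : ‖mu‖ < 1 := by
      have h5 := congrArg norm hmu
      rw [norm_mul, norm_one] at h5
      by_contra h
      rw [not_lt] at h
      nlinarith
    have hm0 : mu ≠ 0 := by
      rintro rfl
      rw [mul_zero] at hmu
      exact zero_ne_one hmu
    obtain ⟨d, hd⟩ : ∃ d : K, d = -mu * c := ⟨_, rfl⟩
    have f1 : x1 = mu * y1 + d := by rw [hd, e1]; linear_combination (-x1) * hmu
    have f2 : x2 = mu * y2 + d := by rw [hd, e2]; linear_combination (-x2) * hmu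
    have f3 : x3 = mu * y3 + d := by rw [hd, e3]; linear_combination (-x3) * hmu
    have fc : c = -l * d := by rw [hd]; linear_combination (-c) * hmu
    have hd1 : ‖d‖ ≤ 1 := by
      have : d = x3 - mu * y3 := by rw [f3]; ring
      rw [this]
      exact nsub hR.x1 (nmul hm.le hR.y1)
    have A : 1 + a1 * mu - 3 * mu ^ 2 * d - a2 * mu ^ 2 = mu ^ 3 * (y1 + y2 + y3) := by
      rw [f1, f2, f3] at s1
      linear_combination (-mu ^ 2) * s1 - (l * mu + 1 + a1 * mu) * hmu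
    have B : a1 * d + a3 - 3 * mu * d ^ 2 - 2 * a2 * mu * d - a4 * mu =
        -(mu ^ 3 * (y1 * y2 + y1 * y3 + y2 * y3)) := by
      rw [f1, f2, f3] at s1
      rw [f1, f2, f3, fc] at s2
      linear_combination mu * s2 - 2 * mu * d * s1 - (a1 * d + a3) * hmu
    have D : mu * (a1 * y3 - (3 * x3 ^ 2 + 2 * a2 * x3 + a4)) + (2 * y3 + a1 * x3 + a3) =
        -(mu ^ 3 * ((y3 - y1) * (y3 - y2))) := by
      rw [f3]
      linear_combination 2 * y3 * A + B
    have hA : ‖mu ^ 3 * (y1 + y2 + y3)‖ = 1 := by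
      rw [← A]
      have e : 1 + a1 * mu - 3 * mu ^ 2 * d - a2 * mu ^ 2 =
          1 + (a1 - 3 * mu * d - a2 * mu) * mu := by ring
      rw [e, norm_eq_of_lt, norm_one]
      rw [norm_one]
      exact lmul (nsub (nsub h1 (nmul (nmul n3 hm.le) hd1)) (nmul h2 hm.le)) hm
    have hB : ‖mu ^ 3 * (y1 * y2 + y1 * y3 + y2 * y3)‖ ≤ 1 := by
      rw [← norm_neg, ← B]
      exact nsub (nsub (nsub (nadd (nmul h1 hd1) h3) (nmul (nmul n3 hm.le) (npow hd1 2)))
        (nmul (nmul (nmul n2 h2) hm.le) hd1)) (nmul h4 hm.le)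
    have hD : ‖mu ^ 3 * ((y3 - y1) * (y3 - y2))‖ < 1 := by
      rw [← norm_neg, ← D]
      exact ladd (lmul hm.le hR.fx) hR.fy
    have hm3 : ‖mu ^ 3‖ < 1 := by
      rw [pow_succ]
      exact lmul (npow hm.le 2) hm
    -- one of the two is integral: then it is close to `R`
    have key : ∀ {y1 y2 : K}, ‖mu ^ 3 * (y1 + y2 + y3)‖ = 1 →
        ‖mu ^ 3 * ((y3 - y1) * (y3 - y2))‖ < 1 → ‖y1‖ ≤ 1 → ‖y1 - y3‖ < 1 := by
      intro y1 y2 hA hD hy1
      have hy2 : 1 < ‖y2‖ := by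
        by_contra h
        rw [not_lt] at h
        have := lmul' hm3 (nadd (nadd hy1 h) hR.y1)
        rw [hA] at this
        exact lt_irrefl _ this
      have e5 : ‖mu ^ 3 * y2‖ = 1 := by
        rw [← hA, norm_mul, norm_mul]
        congr 1
        have e : y1 + y2 + y3 = y2 + (y1 + y3) := by ring
        rw [e, norm_eq_of_lt]
        exact (nadd hy1 hR.y1).trans_lt hy2
      have e6 : ‖y3 - y2‖ = ‖y2‖ := by
        have e : y3 - y2 = -y2 + y3 := by ring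
        rw [e, norm_eq_of_lt, norm_neg]
        rw [norm_neg]
        exact hR.y1.trans_lt hy2
      have e7 : ‖mu ^ 3 * ((y3 - y1) * (y3 - y2))‖ = ‖y3 - y1‖ := by
        rw [norm_mul, norm_mul, e6]
        rw [norm_mul] at e5
        calc ‖mu ^ 3‖ * (‖y3 - y1‖ * ‖y2‖) = (‖mu ^ 3‖ * ‖y2‖) * ‖y3 - y1‖ := by ring
          _ = ‖y3 - y1‖ := by rw [e5, one_mul]
      rw [e7] at hD
      rw [← norm_neg, neg_sub]
      exact hD
    rcases le_or_gt ‖y1‖ 1 with g1 | g1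
    · left
      have hy := key hA hD g1
      refine hR.close h1 h2 ?_ hy
      have : x1 - x3 = mu * (y1 - y3) := by rw [f1, f3]; ring
      rw [this]
      exact lmul hm.le hy
    rcases le_or_gt ‖y2‖ 1 with g2 | g2
    · right
      have hA' : ‖mu ^ 3 * (y2 + y1 + y3)‖ = 1 := by rw [add_comm y2 y1]; exact hA
      have hD' : ‖mu ^ 3 * ((y3 - y2) * (y3 - y1))‖ < 1 := by
        rw [mul_comm (y3 - y2)]; exact hD
      have hy := key hA' hD' g2
      refine hR.close h1 h2 ?_ hy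
      have : x2 - x3 = mu * (y2 - y3) := by rw [f2, f3]; ring
      rw [this]
      exact lmul hm.le hy
    exfalso
    -- both are not integral
    have key2 : ∀ {y1 y2 : K}, 1 < ‖y1‖ → 1 < ‖y2‖ → ‖y2‖ ≤ ‖y1‖ →
        ‖mu ^ 3 * (y1 + y2 + y3)‖ = 1 → ‖mu ^ 3 * (y1 * y2 + y1 * y3 + y2 * y3)‖ ≤ 1 → False := by
      intro y1 y2 g1 g2 h12 hA hB
      have e5 : 1 ≤ ‖mu ^ 3‖ * ‖y1‖ := by
        rw [← hA, norm_mul]
        apply mul_le_mul_of_nonneg_left _ (norm_nonneg _)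
        refine (IsUltrametricDist.norm_add_le_max _ _).trans (max_le
          ((IsUltrametricDist.norm_add_le_max _ _).trans (max_le le_rfl h12)) ?_)
        exact hR.y1.trans g1.le
      have e6 : ‖y1 * y2 + y1 * y3 + y2 * y3‖ = ‖y1‖ * ‖y2‖ := by
        rw [add_assoc, norm_eq_of_lt, norm_mul]
        rw [norm_mul y1 y2]
        refine (IsUltrametricDist.norm_add_le_max _ _).trans_lt (max_lt ?_ ?_)
        · rw [norm_mul]
          exact mul_lt_mul_of_pos_left (hR.y1.trans_lt g2) (by linarith)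
        · rw [norm_mul]
          calc ‖y2‖ * ‖y3‖ ≤ ‖y2‖ * 1 := mul_le_mul_of_nonneg_left hR.y1 (norm_nonneg _)
            _ < ‖y1‖ * ‖y2‖ := by nlinarith
      rw [norm_mul, e6] at hB
      have : 1 < ‖mu ^ 3‖ * (‖y1‖ * ‖y2‖) := by
        calc 1 < ‖y2‖ := g2
          _ = 1 * ‖y2‖ := (one_mul _).symm
          _ ≤ (‖mu ^ 3‖ * ‖y1‖) * ‖y2‖ := mul_le_mul_of_nonneg_right e5 (norm_nonneg _)
          _ = _ := by ring
      linarith
    rcases le_total ‖y2‖ ‖y1‖ with h | h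
    · exact key2 g1 g2 h hA hB
    · refine key2 g2 g1 h ?_ ?_
      · rw [add_comm y2 y1]; exact hA
      · have e : y2 * y1 + y2 * y3 + y1 * y3 = y1 * y2 + y1 * y3 + y2 * y3 := by ring
        rw [e]; exact hB

end norm

section line

open WeierstrassCurve WeierstrassCurve.Affine Polynomial

variable {K : Type} [Field K] [DecidableEq K] {W : WeierstrassCurve.Affine K}

/-- The relations between the coordinates of `P`, `Q`, `-(P + Q)`. -/
theorem line_rel {x₁ x₂ y₁ y₂ : K} (h₁ : W.Equation x₁ y₁) (h₂ : W.Equation x₂ y₂)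
    (hxy : ¬(x₁ = x₂ ∧ y₁ = W.negY x₂ y₂)) :
    let l := W.slope x₁ x₂ y₁ y₂
    let c := y₁ - l * x₁
    let x₃ := W.addX x₁ x₂ l
    y₂ = l * x₂ + c ∧ x₁ + x₂ + x₃ = l ^ 2 + W.a₁ * l - W.a₂ ∧
      x₁ * x₂ + x₁ * x₃ + x₂ * x₃ = -(2 * l * c + W.a₁ * c + W.a₃ * l - W.a₄) := by
  intro l c x₃
  refine ⟨?_, ?_, ?_⟩
  · by_cases hx : x₁ = x₂
    · have hy : y₁ ≠ W.negY x₂ y₂ := fun h => hxy ⟨hx, h⟩
      rw [← Y_eq_of_Y_ne h₁ h₂ hx hy, ← hx]
      show y₁ = l * x₁ + (y₁ - l * x₁)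
      ring
    · have hl : l = (y₁ - y₂) / (x₁ - x₂) := slope_of_X_ne hx
      have h0 : x₁ - x₂ ≠ 0 := sub_ne_zero.2 hx
      have h3 : l * (x₁ - x₂) = y₁ - y₂ := by rw [hl, div_mul_cancel₀ _ h0]
      show y₂ = l * x₂ + (y₁ - l * x₁)
      linear_combination h3
  · show x₁ + x₂ + W.addX x₁ x₂ l = _
    rw [Affine.addX]
    ring
  · have h3 := addPolynomial_slope h₁ h₂ hxy
    rw [addPolynomial_eq, neg_inj, Cubic.prod_X_sub_C_eq, Cubic.toPoly_injective] at h3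
    have h4 := congrArg Cubic.c h3
    simp only at h4
    show x₁ * x₂ + x₁ * W.addX x₁ x₂ l + x₂ * W.addX x₁ x₂ l =
      -(2 * l * (y₁ - l * x₁) + W.a₁ * (y₁ - l * x₁) + W.a₃ * l - W.a₄)
    linear_combination -h4

end line

open Pool.Agent.Y700

theorem sg_neg {K : Type} [NormedField K] [IsUltrametricDist K] {a1 a2 a3 a4 x y : K}
    (h1 : ‖a1‖ ≤ 1) (h3 : ‖a3‖ ≤ 1) (h : Sg a1 a2 a3 a4 x y) :
    Sg a1 a2 a3 a4 x (-y - a1 * x - a3) := by
  refine ⟨h.x1, nsub (nsub (nneg h.y1) (nmul h1 h.x1)) h3, ?_, ?_⟩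
  · have e : a1 * (-y - a1 * x - a3) - (3 * x ^ 2 + 2 * a2 * x + a4) =
        (a1 * y - (3 * x ^ 2 + 2 * a2 * x + a4)) - a1 * (2 * y + a1 * x + a3) := by ring
    rw [e]
    exact lsub h.fx (lmul h1 h.fy)
  · have e : 2 * (-y - a1 * x - a3) + a1 * x + a3 = -(2 * y + a1 * x + a3) := by ring
    rw [e]
    exact lneg h.fy

theorem sing_iff (W : WeierstrassCurve ℤ) (p : ℕ) [Fact p.Prime] (x y : ℚ_[p]) :
    SingRed W p x y ↔ Sg (W.a₁ : ℚ_[p]) W.a₂ W.a₃ W.a₄ x y :=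
  ⟨fun h => ⟨h.1, h.2.1, h.2.2.1, h.2.2.2⟩, fun h => ⟨h.x1, h.y1, h.fx, h.fy⟩⟩

theorem t_E0 : S_E0 := by
  intro W p _ P
  have nz : ∀ n : ℤ, ‖(n : ℚ_[p])‖ ≤ 1 := fun n => Padic.norm_int_le_one n
  constructor
  · intro hP
    induction hP using AddSubgroup.closure_induction with
    | mem P hP => exact hP
    | zero =>
      intro x y h he
      exact absurd he.symm (WeierstrassCurve.Affine.Point.some_ne_zero _)
    | add P Q _ _ hP hQ =>
      intro x y h he hs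
      rcases P with _ | ⟨x₁, y₁, h₁⟩
      · rw [← WeierstrassCurve.Affine.Point.zero_def, zero_add] at he
        exact hQ x y h he hs
      rcases Q with _ | ⟨x₂, y₂, h₂⟩
      · rw [← WeierstrassCurve.Affine.Point.zero_def, add_zero] at he
        exact hP x y h he hs
      by_cases hxy : x₁ = x₂ ∧ y₁ = (W.map (Int.castRingHom ℚ_[p])).toAffine.negY x₂ y₂
      · rw [WeierstrassCurve.Affine.Point.add_of_Y_eq hxy.1 hxy.2] at he
        exact absurd he.symm (WeierstrassCurve.Affine.Point.some_ne_zero _)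
      · rw [WeierstrassCurve.Affine.Point.add_some hxy] at he
        obtain ⟨e1, e2⟩ := WeierstrassCurve.Affine.Point.some.inj he
        obtain ⟨r1, r2, r3⟩ := line_rel h₁.1 h₂.1 hxy
        set l := (W.map (Int.castRingHom ℚ_[p])).toAffine.slope x₁ x₂ y₁ y₂ with hl
        rw [sing_iff, ← e1, ← e2] at hs
        have hs' := sg_neg (nz W.a₁) (nz W.a₃) hs
        set x₃ := (W.map (Int.castRingHom ℚ_[p])).toAffine.addX x₁ x₂ l with hx3
        have e3 : -(W.map (Int.castRingHom ℚ_[p])).toAffine.addY x₁ x₂ y₁ l -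
            (W.a₁ : ℚ_[p]) * x₃ - W.a₃ = l * x₃ + (y₁ - l * x₁) := by
          simp only [WeierstrassCurve.Affine.addY, WeierstrassCurve.Affine.negAddY,
            WeierstrassCurve.Affine.negY]
          show -(-(l * (x₃ - x₁) + y₁) - (W.a₁ : ℚ_[p]) * x₃ - (W.a₃ : ℚ_[p])) - _ - _ = _
          ring
        rw [e3] at hs'
        rcases core (nz W.a₁) (nz W.a₂) (nz W.a₃) (nz W.a₄) (x1 := x₁) (y1 := y₁) (x2 := x₂)
          (y2 := y₂) (x3 := x₃) (l := l) (c := y₁ - l * x₁) (by ring) r1 rfl r2 r3 hs' with h5 | h5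
        · exact hP x₁ y₁ h₁ rfl ((sing_iff W p _ _).2 h5)
        · exact hQ x₂ y₂ h₂ rfl ((sing_iff W p _ _).2 h5)
    | neg P _ hP =>
      intro x y h he hs
      rcases P with _ | ⟨x₁, y₁, h₁⟩
      · rw [← WeierstrassCurve.Affine.Point.zero_def, neg_zero] at he
        exact absurd he.symm (WeierstrassCurve.Affine.Point.some_ne_zero _)
      · rw [WeierstrassCurve.Affine.Point.neg_some] at he
        obtain ⟨e1, e2⟩ := WeierstrassCurve.Affine.Point.some.inj he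
        rw [sing_iff, ← e1, ← e2] at hs
        have hs' := sg_neg (nz W.a₁) (nz W.a₃) hs
        have e3 : -(W.map (Int.castRingHom ℚ_[p])).toAffine.negY x₁ y₁ -
            (W.a₁ : ℚ_[p]) * x₁ - W.a₃ = y₁ := by
          simp only [WeierstrassCurve.Affine.negY]
          show -(-y₁ - (W.a₁ : ℚ_[p]) * x₁ - (W.a₃ : ℚ_[p])) - _ - _ = _
          ring
        rw [e3] at hs'
        exact hP x₁ y₁ h₁ rfl ((sing_iff W p _ _).2 hs')
  · intro h
    exact AddSubgroup.subset_closure h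

end Pool.Agent.Y809.BSD14
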