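import Pool.Agent.Y700.Defs2
import Pool.Agent.Y814.BSD14.Sel2

/-!
# The isogeny Selmer sets of the twists of `X_0(14)` by two split primes
-/

set_option autoImplicit false

namespace Pool.Agent.Y809.BSD14

open Pool.Agent.Y700 Pool.Agent.Y814.BSD14

section

variable {l : ℕ} [hl : Fact l.Prime]

theorem exists_int {x : ℚ_[l]} (h : ‖x‖ ≤ 1) : ∃ r : ℤ_[l], (r : ℚ_[l]) = x := ⟨⟨x, h⟩, rfl⟩

theorem sq_of_PC {A0 B0 M1 z : ℤ} (hz : ¬ (l : ℤ) ∣ z) (hM1 : ¬ (l : ℤ) ∣ M1)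
    (hB0 : ¬ (l : ℤ) ∣ B0) (hB : IsSquare (B0 : ZMod l))
    (h : PC (A0 * (l * M1)) (B0 * (l * M1) ^ 2) l z) : IsSquare (z : ZMod l) := by
  obtain ⟨x, y, hy, h1, t, ht⟩ := h
  have hx := ne_zero_of_eq hy h1
  have hl0 : (l : ℚ_[l]) ≠ 0 := by exact_mod_cast hl.out.ne_zero
  have hz0 : (z : ℚ_[l]) ≠ 0 := by
    have : z ≠ 0 := by rintro rfl; exact hz (dvd_zero _)
    exact_mod_cast this
  have hzn : ‖(z : ℚ_[l])‖ = 1 := by
    refine le_antisymm (Padic.norm_int_le_one z) (not_lt.1 fun h => hz ?_)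
    exact Padic.norm_intCast_lt_one_iff.1 h
  have hzm : (z : ZMod l) ≠ 0 := by
    rw [Ne, ZMod.intCast_zmod_eq_zero_iff_dvd]; exact hz
  have hMm : (M1 : ZMod l) ≠ 0 := by
    rw [Ne, ZMod.intCast_zmod_eq_zero_iff_dvd]; exact hM1
  have hBm : (B0 : ZMod l) ≠ 0 := by
    rw [Ne, ZMod.intCast_zmod_eq_zero_iff_dvd]; exact hB0
  obtain ⟨s, hs⟩ : ∃ s : ℚ_[l], t = s * z := ⟨t / z, by field_simp⟩
  have hxs : x = z * s ^ 2 := by
    apply mul_right_cancel₀ hz0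
    rw [ht, hs]
    ring
  subst hxs
  have hs0 : s ≠ 0 := by
    rintro rfl
    apply hx
    ring
  obtain ⟨N, hN⟩ : ∃ N : ℚ_[l], y = s * z * N := ⟨y / (s * z), by field_simp⟩
  subst hN
  have h2 : z * N ^ 2 = z ^ 2 * s ^ 4 + A0 * (l * M1) * z * s ^ 2 + B0 * (l * M1) ^ 2 := by
    have h3 : (z : ℚ_[l]) * s ^ 2 ≠ 0 := mul_ne_zero hz0 (pow_ne_zero 2 hs0)
    apply mul_left_cancel₀ h3
    push_cast at h1
    linear_combination h1
  have nint : ∀ n : ℤ_[l], ‖(n : ℚ_[l])‖ ≤ 1 := fun n => n.2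
  -- a number `n` with `z n ^ 2` integral is integral
  have hint : ∀ (n : ℚ_[l]) (r : ℤ_[l]), z * n ^ 2 = r → ∃ k : ℤ_[l], (k : ℚ_[l]) = n := by
    intro n r hr
    apply exists_int
    have h4 := congrArg norm hr
    rw [norm_mul, hzn, one_mul, norm_pow] at h4
    have h5 : ‖n‖ ^ 2 ≤ 1 := h4.trans_le (nint r)
    by_contra h6
    push Not at h6
    nlinarith
  rcases le_or_gt 1 ‖s‖ with h3 | h3
  · obtain ⟨e, he⟩ := exists_int (l := l) (x := s⁻¹) (by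
      rw [norm_inv]; exact inv_le_one_of_one_le₀ h3)
    have hse : s * e = 1 := by rw [he, mul_inv_cancel₀ hs0]
    obtain ⟨r, hr⟩ : ∃ r : ℤ_[l], r = z ^ 2 + A0 * (l * M1) * z * e ^ 2 +
      B0 * (l * M1) ^ 2 * e ^ 4 := ⟨_, rfl⟩
    have h4 : (z : ℚ_[l]) * (N * (e : ℚ_[l]) ^ 2) ^ 2 = r := by
      rw [hr]
      push_cast
      have h5 : s ^ 2 * (e : ℚ_[l]) ^ 2 = 1 := by rw [← mul_pow, hse, one_pow]
      linear_combination (e : ℚ_[l]) ^ 4 * h2 + (z ^ 2 * (s ^ 2 * (e : ℚ_[l]) ^ 2 + 1) +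
        A0 * (l * M1) * z * (e : ℚ_[l]) ^ 2) * h5
    obtain ⟨n, hn⟩ := hint _ r h4
    have h5 : (z : ℤ_[l]) * n ^ 2 = r := by
      apply PadicInt.ext
      push_cast
      rw [hn]
      exact h4
    have h6 := congrArg (PadicInt.toZMod (p := l)) h5
    rw [hr] at h6
    simp only [map_mul, map_add, map_pow, map_intCast, map_natCast] at h6
    rw [ZMod.natCast_self] at h6
    refine ⟨PadicInt.toZMod n, ?_⟩
    apply mul_left_cancel₀ hzm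
    linear_combination -h6
  · have h4 : ‖s / l‖ ≤ 1 := by
      rw [norm_div, Padic.norm_p]
      have h5 : ‖s‖ ≤ (l : ℝ)⁻¹ := by
        have := (Padic.norm_le_pow_iff_norm_lt_pow_add_one s (-1)).2 (by simpa using h3)
        simpa using this
      have h6 : (0 : ℝ) < (l : ℝ)⁻¹ := by
        have : (0 : ℝ) < l := by exact_mod_cast hl.out.pos
        positivity
      rw [div_le_one h6]
      exact h5
    obtain ⟨s1, hs1⟩ := exists_int h4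
    have hs2 : s = l * s1 := by rw [hs1]; field_simp
    obtain ⟨N1, hN1⟩ : ∃ N1 : ℚ_[l], N = l * N1 := ⟨N / l, by field_simp⟩
    obtain ⟨r, hr⟩ : ∃ r : ℤ_[l], r = z ^ 2 * l ^ 2 * s1 ^ 4 + A0 * M1 * l * z * s1 ^ 2 +
      B0 * M1 ^ 2 := ⟨_, rfl⟩
    have h5 : (z : ℚ_[l]) * N1 ^ 2 = r := by
      rw [hr]
      push_cast
      apply mul_left_cancel₀ (pow_ne_zero 2 hl0)
      rw [hN1, hs2] at h2
      linear_combination h2
    obtain ⟨n, hn⟩ := hint _ r h5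
    have h6 : (z : ℤ_[l]) * n ^ 2 = r := by
      apply PadicInt.ext
      push_cast
      rw [hn]
      exact h5
    have h7 := congrArg (PadicInt.toZMod (p := l)) h6
    rw [hr] at h7
    simp only [map_mul, map_add, map_pow, map_intCast, map_natCast] at h7
    rw [ZMod.natCast_self] at h7
    obtain ⟨b, hb⟩ := hB
    have hn0 : PadicInt.toZMod n ≠ 0 := by
      intro h0
      rw [h0] at h7
      apply mul_ne_zero hBm (pow_ne_zero 2 hMm)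
      linear_combination -h7
    refine ⟨b * (M1 : ZMod l) / PadicInt.toZMod n, ?_⟩
    rw [div_mul_div_comm, eq_div_iff (mul_ne_zero hn0 hn0)]
    rw [hb] at h7
    linear_combination h7

end

/-- the local condition at a split prime dividing `z`, first set -/
theorem nRt1 {p q m : ℕ} (hp : p.Prime) (hq0 : (q : ZMod p) ≠ 0) (hm : ¬ (p : ℤ) ∣ (q * m : ℤ))
    (p2 : p ≠ 2) {z z' : ℤ} (hz : Squarefree z) (hz' : z = p * z')
    (h : ∀ (l : ℕ) [Fact l.Prime], PC (13 * (p * (q * m))) (128 * (p * (q * m)) ^ 2) l z)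
    (hs : IsSquare ((z' : ZMod p) * (q : ZMod p))) : ¬ Rt p m := by
  intro hR
  have : Fact p.Prime := ⟨hp⟩
  have hpP : Prime (p : ℤ) := Nat.prime_iff_prime_int.1 hp
  have hB : ¬ (p : ℤ) ∣ 128 * (q * m : ℤ) ^ 2 := by
    intro h0
    rcases hpP.dvd_or_dvd h0 with h0 | h0
    · have h1 : p ∣ 128 := by exact_mod_cast h0
      rw [show (128 : ℕ) = 2 ^ 7 by norm_num] at h1
      exact p2 ((Nat.prime_dvd_prime_iff_eq hp Nat.prime_two).1 (hp.dvd_of_dvd_pow h1))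
    · exact hm (hpP.dvd_of_dvd_pow h0)
  have h1 := h p
  rw [show (13 : ℤ) * (p * (q * m)) = p * (13 * (q * m)) by ring,
    show (128 : ℤ) * (p * (q * m)) ^ 2 = (p : ℤ) ^ 2 * (128 * (q * m) ^ 2) by ring] at h1
  obtain ⟨r, hr, -, hr2⟩ := root_of_PC hz ⟨z', hz'⟩ hB h1
  have hz0 : (z' : ZMod p) ≠ 0 := by
    rw [Ne, ZMod.intCast_zmod_eq_zero_iff_dvd]
    exact not_dvd_of_sqf hp hz hz'
  obtain ⟨t, ht⟩ := hr2 z' hz'
  obtain ⟨s, hs⟩ := hs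
  refine hR (r / q) ?_ ⟨t * s / (z' * q), ?_⟩
  · push_cast at hr
    field_simp
    linear_combination hr
  · field_simp
    linear_combination (z' * q) * ht + t ^ 2 * hs

/-- the local condition at a split prime dividing `z`, second set -/
theorem nRt2 {p q m : ℕ} (hp : p.Prime) (hq0 : (q : ZMod p) ≠ 0) (hm : ¬ (p : ℤ) ∣ (q * m : ℤ))
    (p8 : p % 8 = 1) (p7 : p ≠ 7) (hsev : IsSquare (-7 : ZMod p))
    {z z' : ℤ} (hz : Squarefree z) (hz' : z = p * z')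
    (h : ∀ (l : ℕ) [Fact l.Prime], PC (-26 * (p * (q * m))) (-343 * (p * (q * m)) ^ 2) l z)
    (hs : IsSquare ((z' : ZMod p) * (q : ZMod p))) : ¬ Rt p m := by
  intro hR
  have : Fact p.Prime := ⟨hp⟩
  have hpP : Prime (p : ℤ) := Nat.prime_iff_prime_int.1 hp
  have p2 : p ≠ 2 := by rintro rfl; omega
  have hB : ¬ (p : ℤ) ∣ -343 * (q * m : ℤ) ^ 2 := by
    intro h0
    rcases hpP.dvd_or_dvd h0 with h0 | h0
    · exact dvd_343 hp p7 h0
    · exact hm (hpP.dvd_of_dvd_pow h0)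
  have h1 := h p
  rw [show (-26 : ℤ) * (p * (q * m)) = p * (-26 * (q * m)) by ring,
    show (-343 : ℤ) * (p * (q * m)) ^ 2 = (p : ℤ) ^ 2 * (-343 * (q * m) ^ 2) by ring] at h1
  obtain ⟨r0, hr0', hr00, hr2⟩ := root_of_PC hz ⟨z', hz'⟩ hB h1
  have hz0 : (z' : ZMod p) ≠ 0 := by
    rw [Ne, ZMod.intCast_zmod_eq_zero_iff_dvd]
    exact not_dvd_of_sqf hp hz hz'
  obtain ⟨t0, ht0'⟩ := hr2 z' hz'
  obtain ⟨s0, hs0'⟩ := hs
  obtain ⟨r, hrd⟩ : ∃ r : ZMod p, r = r0 / q := ⟨_, rfl⟩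
  have hr : r ^ 2 + (-26 * (m : ZMod p)) * r + (-343 * (m : ZMod p) ^ 2) = 0 := by
    rw [hrd]
    push_cast at hr0'
    field_simp
    linear_combination hr0'
  have hrs : IsSquare r := by
    refine ⟨t0 * s0 / (z' * q), ?_⟩
    rw [hrd]
    field_simp
    linear_combination (z' * q) * ht0' + t0 ^ 2 * hs0'
  have hr0 : r ≠ 0 := by
    rw [hrd]
    exact div_ne_zero hr00 hq0
  have n2 : (2 : ZMod p) ≠ 0 := by exact_mod_cast cast_ne hp Nat.prime_two p2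
  have n7 : (7 : ZMod p) ≠ 0 := by
    exact_mod_cast cast_ne hp (by norm_num : (7 : ℕ).Prime) p7
  obtain ⟨s2, hs2⟩ : IsSquare (2 : ZMod p) := by
    rw [ZMod.exists_sq_eq_two_iff p2]
    exact Or.inl p8
  obtain ⟨i, hi⟩ : IsSquare (-1 : ZMod p) := by
    rw [ZMod.exists_sq_eq_neg_one_iff]
    omega
  obtain ⟨s7, hs7⟩ := hsev
  -- a root of the other polynomial
  obtain ⟨al, hal⟩ : ∃ al : ZMod p, al = (-13 * m + 7 * m * s7) / 2 := ⟨_, rfl⟩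
  have hal1 : al ^ 2 + 13 * (m : ZMod p) * al + 128 * (m : ZMod p) ^ 2 = 0 := by
    rw [hal]
    field_simp
    linear_combination -49 * (m : ZMod p) ^ 2 * hs7
  have hns : ¬ IsSquare al := hR al hal1
  apply hns
  obtain ⟨s, hsdef⟩ : ∃ s : ZMod p, s = 8 * m * s2 := ⟨_, rfl⟩
  have hs : s ^ 2 = 128 * (m : ZMod p) ^ 2 := by
    rw [hsdef]; linear_combination -64 * (m : ZMod p) ^ 2 * hs2
  have hrr : (r - 13 * m - 2 * s) * (r - 13 * m + 2 * s) = 0 := by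
    linear_combination hr - 4 * hs
  obtain ⟨t, ht⟩ := hrs
  have ht0 : t ≠ 0 := by
    rintro rfl
    apply hr0
    rw [ht]; ring
  rcases mul_eq_zero.1 hrr with h6 | h6
  · refine ⟨i * (al - s) / t, ?_⟩
    field_simp
    linear_combination -al * ht + al * h6 + hal1 + hs + (al - s) ^ 2 * hi
  · refine ⟨i * (al + s) / t, ?_⟩
    field_simp
    linear_combination -al * ht + al * h6 + hal1 + hs + (al + s) ^ 2 * hi

/-- the hypotheses on the coefficients -/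
structure Cf (m : ℕ) (c1 c2 : ℤ) (q0 : ℕ) : Prop where
  c2d : ∀ q : ℕ, q.Prime → q ≠ q0 → ¬ (q : ℤ) ∣ c2
  rt : ∀ q : ℕ, q.Prime → q ∣ m → ∀ M r : ZMod q, M ≠ 0 → r ^ 2 + c1 * M * r + c2 * M ^ 2 ≠ 0
  q0m : ¬ q0 ∣ m

theorem primes_of {m p1 p2 : ℕ} (hp1 : p1.Prime) (hp2 : p2.Prime)
    (hsqf : Squarefree (((p1 * p2 * m : ℕ)) : ℤ)) {c1 c2 : ℤ} {q0 : ℕ} (C : Cf m c1 c2 q0) {z : ℤ}
    (hz : Squarefree z)
    (h : ∀ (l : ℕ) [Fact l.Prime], PC (c1 * (p1 * (p2 * m))) (c2 * (p1 * (p2 * m)) ^ 2) l z) :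
    ∀ q : ℕ, q.Prime → (q : ℤ) ∣ z → q = q0 ∨ q = p1 ∨ q = p2 := by
  intro q hq hqz
  by_contra hcon
  push Not at hcon
  obtain ⟨n0, n1, n2⟩ := hcon
  have : Fact q.Prime := ⟨hq⟩
  have hqP : Prime (q : ℤ) := Nat.prime_iff_prime_int.1 hq
  by_cases hqm : q ∣ m
  · obtain ⟨m', rfl⟩ := hqm
    have hM' : ¬ (q : ℤ) ∣ (p1 * (p2 * m') : ℤ) := by
      refine not_dvd_of_sqf hq hsqf ?_
      push_cast; ring
    have hB : ¬ (q : ℤ) ∣ c2 * (p1 * (p2 * m')) ^ 2 := by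
      intro h0
      rcases hqP.dvd_or_dvd h0 with h0 | h0
      · exact C.c2d q hq n0 h0
      · exact hM' (hqP.dvd_of_dvd_pow h0)
    have h1 := h q
    rw [show c1 * (p1 * (p2 * ((q * m' : ℕ) : ℤ))) = q * (c1 * (p1 * (p2 * m'))) by
        push_cast; ring,
      show c2 * (p1 * (p2 * ((q * m' : ℕ) : ℤ))) ^ 2 = (q : ℤ) ^ 2 * (c2 * (p1 * (p2 * m')) ^ 2) by
        push_cast; ring] at h1
    obtain ⟨r, hr, -, -⟩ := root_of_PC hz hqz hB h1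
    have hM0 : ((p1 * (p2 * m') : ℤ) : ZMod q) ≠ 0 := by
      intro h0
      exact hM' ((ZMod.intCast_zmod_eq_zero_iff_dvd _ _).1 h0)
    refine C.rt q hq (Dvd.intro _ rfl) ((p1 * (p2 * m') : ℤ) : ZMod q) r hM0 ?_
    rw [← hr]; push_cast; ring
  · refine not_dvd_of_PC hz ?_ (h q) hqz
    intro h0
    rcases hqP.dvd_or_dvd h0 with h0 | h0
    · exact C.c2d q hq n0 h0
    · have h1 := hqP.dvd_of_dvd_pow h0
      rcases hqP.dvd_or_dvd h1 with h1 | h1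
      · have h1' : q ∣ p1 := by exact_mod_cast h1
        exact n1 ((Nat.prime_dvd_prime_iff_eq hq hp1).1 h1')
      · rcases hqP.dvd_or_dvd h1 with h1 | h1
        · have h1' : q ∣ p2 := by exact_mod_cast h1
          exact n2 ((Nat.prime_dvd_prime_iff_eq hq hp2).1 h1')
        · exact hqm (by exact_mod_cast h1)

/-- the conditions at one of the two primes -/
structure At (m p q : ℕ) (z : ℤ) (q0 : ℕ) : Prop where
  pp : p.Prime
  p8 : p % 8 = 1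
  ndvd : ¬ (p : ℤ) ∣ (q * m : ℤ)
  usq : ∀ u : ℤ, u.natAbs = 1 ∨ u.natAbs = q0 → IsSquare (u : ZMod p)
  nrt : ∀ z' : ℤ, z = p * z' → IsSquare ((z' : ZMod p) * (q : ZMod p)) → ¬ Rt p m

theorem At.ne {m p q : ℕ} {z : ℤ} {q0 : ℕ} (A : At m p q z q0) : p ≠ q := by
  rintro rfl
  exact A.ndvd (dvd_mul_right _ _)

theorem unit_part {z z' : ℤ} {q0 : ℕ} (hz : Squarefree z) (hd : z' ∣ z)
    (h : ∀ q : ℕ, q.Prime → (q : ℤ) ∣ z' → q = q0) : z'.natAbs = 1 ∨ z'.natAbs = q0 :=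
  only_prime (hz.squarefree_of_dvd hd) h

theorem one_case {m p1 p2 : ℕ} {z : ℤ} {q0 : ℕ} (A1 : At m p1 p2 z q0) (A2 : At m p2 p1 z q0)
    (hz : Squarefree z) {c1 c2 : ℤ} (hc2 : ¬ (p2 : ℤ) ∣ c2) (hsq : IsSquare (c2 : ZMod p2))
    (hpr : ∀ q : ℕ, q.Prime → (q : ℤ) ∣ z → q = q0 ∨ q = p1 ∨ q = p2)
    (h : ∀ (l : ℕ) [Fact l.Prime], PC (c1 * (p1 * (p2 * m))) (c2 * (p1 * (p2 * m)) ^ 2) l z)
    (hR : IsSquare (p1 : ZMod p2) → Rt p1 m) (h1 : (p1 : ℤ) ∣ z) (h2 : ¬ (p2 : ℤ) ∣ z) :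
    False := by
  have f1 : Fact p1.Prime := ⟨A1.pp⟩
  have f2 : Fact p2.Prime := ⟨A2.pp⟩
  obtain ⟨z', hz'⟩ := h1
  have n1 := not_dvd_of_sqf A1.pp hz hz'
  have n2 : ¬ (p2 : ℤ) ∣ z' := fun h0 => h2 (by rw [hz']; exact h0.mul_left _)
  have hu : z'.natAbs = 1 ∨ z'.natAbs = q0 := by
    refine unit_part hz (Dvd.intro_left _ hz'.symm) ?_
    intro q hq hqz
    rcases hpr q hq (by rw [hz']; exact hqz.mul_left _) with h4 | h4 | h4
    · exact h4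
    · subst h4; exact absurd hqz n1
    · subst h4; exact absurd hqz n2
  have e1 : c1 * ((p1 : ℤ) * (p2 * m)) = c1 * (p2 * (p1 * m)) := by ring
  have e2 : c2 * ((p1 : ℤ) * (p2 * m)) ^ 2 = c2 * (p2 * (p1 * m)) ^ 2 := by ring
  have h3 := h p2
  rw [e1, e2] at h3
  obtain ⟨r, hr⟩ := sq_of_PC h2 (by exact_mod_cast A2.ndvd) hc2 hsq h3
  obtain ⟨s, hs⟩ := A2.usq z' hu
  have hz0 : (z' : ZMod p2) ≠ 0 := by
    rw [Ne, ZMod.intCast_zmod_eq_zero_iff_dvd]; exact n2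
  have hs0 : s ≠ 0 := by rintro rfl; apply hz0; rw [hs]; ring
  have h12 : IsSquare (p1 : ZMod p2) := by
    refine ⟨r / s, ?_⟩
    rw [div_mul_div_comm, eq_div_iff (mul_ne_zero hs0 hs0), ← hs, ← hr, hz']
    push_cast
    ring
  have h21 : IsSquare (p2 : ZMod p1) :=
    (ZMod.exists_sq_eq_prime_iff_of_mod_four_eq_one (p := p1) (q := p2)
      (by have := A1.p8; omega) (by rintro rfl; have := A2.p8; omega)).2 h12
  exact A1.nrt z' hz' ((A1.usq z' hu).mul h21) (hR h12)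

theorem both_case {m p1 p2 : ℕ} {z : ℤ} {q0 : ℕ} (A1 : At m p1 p2 z q0) (A2 : At m p2 p1 z q0)
    (hz : Squarefree z) (hpr : ∀ q : ℕ, q.Prime → (q : ℤ) ∣ z → q = q0 ∨ q = p1 ∨ q = p2)
    (hR : Rt p1 m ∨ Rt p2 m) (h1 : (p1 : ℤ) ∣ z) (h2 : (p2 : ℤ) ∣ z) : False := by
  obtain ⟨z', hz'⟩ := h1
  have n1 := not_dvd_of_sqf A1.pp hz hz'
  have P1 : Prime (p1 : ℤ) := Nat.prime_iff_prime_int.1 A1.pp
  have P2 : Prime (p2 : ℤ) := Nat.prime_iff_prime_int.1 A2.pp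
  have h2' : (p2 : ℤ) ∣ z' := by
    rw [hz'] at h2
    rcases P2.dvd_or_dvd h2 with h3 | h3
    · have h4 : p2 ∣ p1 := by exact_mod_cast h3
      exact absurd ((Nat.prime_dvd_prime_iff_eq A2.pp A1.pp).1 h4) A2.ne
    · exact h3
  obtain ⟨u, hu⟩ := h2'
  have n1u : ¬ (p1 : ℤ) ∣ u := fun h0 => n1 (by rw [hu]; exact h0.mul_left _)
  have hzz : z = p2 * (p1 * u) := by rw [hz', hu]; ring
  have n2u : ¬ (p2 : ℤ) ∣ u := fun h0 => not_dvd_of_sqf A2.pp hz hzz (h0.mul_left _)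
  have huu : u.natAbs = 1 ∨ u.natAbs = q0 := by
    refine unit_part hz ⟨p1 * p2, by rw [hz', hu]; ring⟩ ?_
    intro q hq hqz
    rcases hpr q hq (by rw [hz', hu]; exact (hqz.mul_left _).mul_left _) with h4 | h4 | h4
    · exact h4
    · subst h4; exact absurd hqz n1u
    · subst h4; exact absurd hqz n2u
  rcases hR with hR | hR
  · refine A1.nrt z' hz' ?_ hR
    rw [hu]
    push_cast
    have : (p2 : ZMod p1) * (u : ZMod p1) * (p2 : ZMod p1) =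
      (u : ZMod p1) * ((p2 : ZMod p1) * (p2 : ZMod p1)) := by ring
    rw [this]
    exact (A1.usq u huu).mul ⟨_, rfl⟩
  · refine A2.nrt (p1 * u) hzz ?_ hR
    push_cast
    have : (p1 : ZMod p2) * (u : ZMod p2) * (p1 : ZMod p2) =
      (u : ZMod p2) * ((p1 : ZMod p2) * (p1 : ZMod p2)) := by ring
    rw [this]
    exact (A2.usq u huu).mul ⟨_, rfl⟩

theorem unit_sq {p q0 : ℕ} (hp : p.Prime) (p8 : p % 8 = 1) (h0 : IsSquare (q0 : ZMod p)) (u : ℤ)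
    (hu : u.natAbs = 1 ∨ u.natAbs = q0) : IsSquare (u : ZMod p) := by
  have : Fact p.Prime := ⟨hp⟩
  obtain ⟨i, hi⟩ : IsSquare (-1 : ZMod p) := by
    rw [ZMod.exists_sq_eq_neg_one_iff]
    omega
  obtain ⟨s, hs⟩ := h0
  have h4 : u = 1 ∨ u = -1 ∨ u = q0 ∨ u = -q0 := by omega
  rcases h4 with rfl | rfl | rfl | rfl
  · exact ⟨1, by push_cast; ring⟩
  · exact ⟨i, by push_cast; exact hi⟩
  · exact ⟨s, by push_cast; exact hs⟩
  · exact ⟨i * s, by push_cast; linear_combination (q0 : ZMod p) * hi + i ^ 2 * hs⟩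

/-- no one of the two split primes divides `z` -/
theorem none_of {m p1 p2 : ℕ} (H : Hy2 m p1 p2) {z : ℤ} {q0 : ℕ} (A1 : At m p1 p2 z q0)
    (A2 : At m p2 p1 z q0)
    (hz : Squarefree z) {c1 c2 : ℤ} (hc1 : ¬ (p1 : ℤ) ∣ c2) (hsq1 : IsSquare (c2 : ZMod p1))
    (hc2 : ¬ (p2 : ℤ) ∣ c2) (hsq2 : IsSquare (c2 : ZMod p2)) (C : Cf m c1 c2 q0)
    (h : ∀ (l : ℕ) [Fact l.Prime], PC (c1 * (p1 * (p2 * m))) (c2 * (p1 * (p2 * m)) ^ 2) l z) :
    z.natAbs = 1 ∨ z.natAbs = q0 := by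
  have f1 : Fact p1.Prime := ⟨A1.pp⟩
  have f2 : Fact p2.Prime := ⟨A2.pp⟩
  have hpr := primes_of A1.pp A2.pp H.sqf C hz h
  have hpr' : ∀ q : ℕ, q.Prime → (q : ℤ) ∣ z → q = q0 ∨ q = p2 ∨ q = p1 := by
    intro q hq hqz
    have := hpr q hq hqz
    tauto
  have h' : ∀ (l : ℕ) [Fact l.Prime],
      PC (c1 * (p2 * (p1 * m))) (c2 * (p2 * (p1 * m)) ^ 2) l z := by
    intro l _
    have e1 : c1 * ((p1 : ℤ) * (p2 * m)) = c1 * (p2 * (p1 * m)) := by ring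
    have e2 : c2 * ((p1 : ℤ) * (p2 * m)) ^ 2 = c2 * (p2 * (p1 * m)) ^ 2 := by ring
    have := h l
    rwa [e1, e2] at this
  have key : ¬ (p1 : ℤ) ∣ z ∧ ¬ (p2 : ℤ) ∣ z := by
    by_cases h1 : (p1 : ℤ) ∣ z <;> by_cases h2 : (p2 : ℤ) ∣ z
    · exact (both_case A1 A2 hz hpr H.cor h1 h2).elim
    · exact (one_case A1 A2 hz hc2 hsq2 hpr h (fun h0 => (H.c12 h0).1) h1 h2).elim
    · refine (one_case A2 A1 hz hc1 hsq1 hpr' h' (fun h0 => (H.c12 ?_).2) h2 h1).elim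
      exact (ZMod.exists_sq_eq_prime_iff_of_mod_four_eq_one (p := p1) (q := p2)
        (by have := A1.p8; omega) (by rintro rfl; have := A2.p8; omega)).1 h0
    · exact ⟨h1, h2⟩
  refine only_prime hz ?_
  intro q hq hqz
  rcases hpr q hq hqz with h4 | h4 | h4
  · exact h4
  · subst h4; exact absurd hqz key.1
  · subst h4; exact absurd hqz key.2

theorem Hy2.nd1 {m p1 p2 : ℕ} (H : Hy2 m p1 p2) : ¬ (p1 : ℤ) ∣ (p2 * m : ℤ) :=
  not_dvd_of_sqf H.pp1 H.sqf (by push_cast; ring)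

theorem Hy2.nd2 {m p1 p2 : ℕ} (H : Hy2 m p1 p2) : ¬ (p2 : ℤ) ∣ (p1 * m : ℤ) :=
  not_dvd_of_sqf H.pp2 H.sqf (by push_cast; ring)

theorem cast0 {p q m : ℕ} (h : ¬ (p : ℤ) ∣ (q * m : ℤ)) : (q : ZMod p) ≠ 0 := by
  intro h0
  apply h
  have : p ∣ q := (ZMod.natCast_eq_zero_iff q p).1 h0
  have h1 : (p : ℤ) ∣ (q : ℤ) := by exact_mod_cast this
  exact h1.mul_right _

theorem nd128 {q : ℕ} (hq : q.Prime) (n2 : q ≠ 2) : ¬ (q : ℤ) ∣ 128 := by
  intro h0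
  have h1 : q ∣ 128 := by exact_mod_cast h0
  rw [show (128 : ℕ) = 2 ^ 7 by norm_num] at h1
  exact n2 ((Nat.prime_dvd_prime_iff_eq hq Nat.prime_two).1 (hq.dvd_of_dvd_pow h1))

theorem t_SEL1b : S_SEL1b := by
  intro m p1 p2 H z hz hz0 h0
  have h : ∀ (l : ℕ) [Fact l.Prime],
      PC (13 * (p1 * (p2 * m))) (128 * (p1 * (p2 * m)) ^ 2) l z := by
    intro l _
    have := h0 l
    rwa [mul_assoc (p1 : ℤ) p2 m] at this
  have e1 : p1 ≠ 2 := by rintro rfl; have := H.p18; omega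
  have e2 : p2 ≠ 2 := by rintro rfl; have := H.p28; omega
  have s2 : ∀ p : ℕ, p.Prime → p % 8 = 1 → IsSquare (2 : ZMod p) := by
    intro p hp p8
    have : Fact p.Prime := ⟨hp⟩
    rw [ZMod.exists_sq_eq_two_iff (by rintro rfl; omega)]
    exact Or.inl p8
  have s128 : ∀ p : ℕ, p.Prime → p % 8 = 1 → IsSquare (((128 : ℤ)) : ZMod p) := by
    intro p hp p8
    obtain ⟨s, hs⟩ := s2 p hp p8
    refine ⟨8 * s, ?_⟩
    push_cast
    linear_combination 64 * hs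
  have s2' : ∀ p : ℕ, p.Prime → p % 8 = 1 → IsSquare (((2 : ℕ)) : ZMod p) := by
    intro p hp p8
    exact_mod_cast s2 p hp p8
  have C : Cf m 13 128 2 := by
    refine ⟨fun q hq n2 => nd128 hq n2, ?_, ?_⟩
    · intro q hq hqm M r hM hr
      have : Fact q.Prime := ⟨hq⟩
      obtain ⟨n2, n7, hs7, hs2⟩ := H.two q hq hqm
      apply hs7
      have n7' : (7 : ZMod q) ≠ 0 := by exact_mod_cast cast_ne hq (by norm_num : (7 : ℕ).Prime) n7
      refine ⟨(2 * r + 13 * M) / (7 * M), ?_⟩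
      push_cast at hr
      field_simp
      linear_combination -4 * hr
    · intro h2
      exact (H.two 2 Nat.prime_two h2).1 rfl
  have A1 : At m p1 p2 z 2 := ⟨H.pp1, H.p18, Hy2.nd1 H, unit_sq H.pp1 H.p18 (s2' _ H.pp1 H.p18),
    fun z' hz' hs => nRt1 H.pp1 (cast0 (Hy2.nd1 H)) (Hy2.nd1 H) e1 hz hz' h hs⟩
  have A2 : At m p2 p1 z 2 := ⟨H.pp2, H.p28, Hy2.nd2 H, unit_sq H.pp2 H.p28 (s2' _ H.pp2 H.p28),
    fun z' hz' hs => nRt1 H.pp2 (cast0 (Hy2.nd2 H)) (Hy2.nd2 H) e2 hz hz' (by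
      intro l _
      have := h l
      rwa [show (13 : ℤ) * ((p1 : ℤ) * (p2 * m)) = 13 * (p2 * (p1 * m)) by ring,
        show (128 : ℤ) * ((p1 : ℤ) * (p2 * m)) ^ 2 = 128 * (p2 * (p1 * m)) ^ 2 by ring] at this) hs⟩
  have := none_of H A1 A2 hz (nd128 H.pp1 e1) (s128 _ H.pp1 H.p18) (nd128 H.pp2 e2)
    (s128 _ H.pp2 H.p28) C h
  omega

theorem t_SEL2b : S_SEL2b := by
  intro m p1 p2 H z hz h0
  have h : ∀ (l : ℕ) [Fact l.Prime],
      PC (-26 * (p1 * (p2 * m))) (-343 * (p1 * (p2 * m)) ^ 2) l z := by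
    intro l _
    have := h0 l
    rwa [show (-2 : ℤ) * (13 * ((p1 * p2) * m)) = -26 * (p1 * (p2 * m)) by ring,
      show ((13 : ℤ) * ((p1 * p2) * m)) ^ 2 - 4 * (128 * ((p1 * p2) * m) ^ 2) =
        -343 * (p1 * (p2 * m)) ^ 2 by ring] at this
  have s7 : ∀ p : ℕ, p.Prime → p % 8 = 1 → IsSquare (-7 : ZMod p) →
      IsSquare (((7 : ℕ)) : ZMod p) := by
    intro p hp p8 hs
    have : Fact p.Prime := ⟨hp⟩
    obtain ⟨i, hi⟩ : IsSquare (-1 : ZMod p) := by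
      rw [ZMod.exists_sq_eq_neg_one_iff]
      omega
    obtain ⟨s, hs⟩ := hs
    refine ⟨i * s, ?_⟩
    push_cast
    linear_combination (-7 : ZMod p) * hi + i ^ 2 * hs
  have s343 : ∀ p : ℕ, IsSquare (-7 : ZMod p) → IsSquare (((-343 : ℤ)) : ZMod p) := by
    rintro p ⟨s, hs⟩
    refine ⟨7 * s, ?_⟩
    push_cast
    linear_combination 49 * hs
  have C : Cf m (-26) (-343) 7 := by
    refine ⟨fun q hq n7 => dvd_343 hq n7, ?_, ?_⟩
    · intro q hq hqm M r hM hr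
      have : Fact q.Prime := ⟨hq⟩
      obtain ⟨n2, n7, hs7, hs2⟩ := H.two q hq hqm
      apply hs2
      have n2' : (2 : ZMod q) ≠ 0 := by exact_mod_cast cast_ne hq Nat.prime_two n2
      have n16 : (16 : ZMod q) ≠ 0 := by
        rw [show (16 : ZMod q) = 2 ^ 4 by norm_num]; exact pow_ne_zero _ n2'
      refine ⟨(r - 13 * M) / (16 * M), ?_⟩
      push_cast at hr
      field_simp
      linear_combination -hr
    · intro h2
      exact (H.two 7 (by norm_num) h2).2.1 rfl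
  have A1 : At m p1 p2 z 7 := ⟨H.pp1, H.p18, Hy2.nd1 H,
    unit_sq H.pp1 H.p18 (s7 _ H.pp1 H.p18 H.sev1),
    fun z' hz' hs => nRt2 H.pp1 (cast0 (Hy2.nd1 H)) (Hy2.nd1 H) H.p18 H.p17 H.sev1 hz hz' h hs⟩
  have A2 : At m p2 p1 z 7 := ⟨H.pp2, H.p28, Hy2.nd2 H,
    unit_sq H.pp2 H.p28 (s7 _ H.pp2 H.p28 H.sev2),
    fun z' hz' hs => nRt2 H.pp2 (cast0 (Hy2.nd2 H)) (Hy2.nd2 H) H.p28 H.p27 H.sev2 hz hz' (by
      intro l _
      have := h l
      rwa [show (-26 : ℤ) * ((p1 : ℤ) * (p2 * m)) = -26 * (p2 * (p1 * m)) by ring,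
        show (-343 : ℤ) * ((p1 : ℤ) * (p2 * m)) ^ 2 = -343 * (p2 * (p1 * m)) ^ 2 by ring]
        at this) hs⟩
  have h12 := none_of H A1 A2 hz (dvd_343 H.pp1 H.p17) (s343 _ H.sev1) (dvd_343 H.pp2 H.p27)
    (s343 _ H.sev2) C h
  have hM : ((p1 : ℤ) * (p2 * m)) % 4 = 1 := by
    have h1 := H.m4
    have h2 : p1 % 4 = 1 := by have := H.p18; omega
    have h3 : p2 % 4 = 1 := by have := H.p28; omega
    have : (p1 * (p2 * m)) % 4 = 1 := by
      rw [Nat.mul_mod, Nat.mul_mod p2 m, h1, h2, h3]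
    exact_mod_cast this
  have e1 : z ≠ -1 := by
    rintro rfl
    exact not_neg_one hM (h 2)
  have e2 : z ≠ 7 := by
    rintro rfl
    exact not_seven hM (h 2)
  omega

end Pool.Agent.Y809.BSD14
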