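import Pool.Agent.Y809.BSD14.Tam2

/-!
The Tamagawa numbers of the twists of `X_0(14)` at the primes that divide the twist.
-/

set_option autoImplicit false
set_option linter.all false

namespace Pool.Agent.Y809.BSD14

open scoped Classical

open Pool.Agent.Y700 WeierstrassCurve

section

variable (q : ℕ) [Fact q.Prime]

theorem isWM (M : ℤ) (hM : M % 4 = 1) :
    IsWM ((WM M).map (Int.castRingHom ℚ_[q])).toAffine (M : ℚ_[q]) := by
  obtain ⟨k, rfl⟩ : ∃ k, M = 4 * k + 1 := ⟨M / 4, by omega⟩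
  have e2 : (4 * k + 1 - 1) / 4 = k := by omega
  have e4 : (9 * (4 * k + 1) ^ 2 - 1) / 2 = 72 * k ^ 2 + 36 * k + 4 := by
    have : 9 * (4 * k + 1) ^ 2 - 1 = 2 * (72 * k ^ 2 + 36 * k + 4) := by ring
    rw [this]
    exact Int.mul_ediv_cancel_left _ (by norm_num)
  have e6 : (23 * (4 * k + 1) ^ 3 + 1) / 4 = 368 * k ^ 3 + 276 * k ^ 2 + 69 * k + 6 := by
    have : 23 * (4 * k + 1) ^ 3 + 1 = 4 * (368 * k ^ 3 + 276 * k ^ 2 + 69 * k + 6) := by ring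
    rw [this]
    exact Int.mul_ediv_cancel_left _ (by norm_num)
  refine ⟨?_, ?_, ?_, ?_, ?_⟩
  · show (((1 : ℤ)) : ℚ_[q]) = 1
    norm_num
  · show (((1 : ℤ)) : ℚ_[q]) = 1
    norm_num
  · show 4 * ((((4 * k + 1 - 1) / 4 : ℤ)) : ℚ_[q]) = _
    rw [e2]
    push_cast
    ring
  · show 2 * ((((9 * (4 * k + 1) ^ 2 - 1) / 2 : ℤ)) : ℚ_[q]) = _
    rw [e4]
    push_cast
    ring
  · show 4 * (((-((23 * (4 * k + 1) ^ 3 + 1) / 4) : ℤ)) : ℚ_[q]) = _
    rw [e6]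
    push_cast
    ring

theorem norm_nat_eq_one {n : ℕ} (h : q.Coprime n) : ‖(n : ℚ_[q])‖ = 1 :=
  Padic.norm_natCast_eq_one_iff.2 h

theorem norm_two_pow (hq : q ≠ 2) (n : ℕ) : ‖(((2 ^ n : ℕ)) : ℚ_[q])‖ = 1 := by
  apply norm_nat_eq_one
  apply Nat.Coprime.pow_right
  exact (Nat.coprime_primes Fact.out Nat.prime_two).2 hq

theorem norm_le_inv {x : ℚ_[q]} (h : ‖x‖ < 1) : ‖x‖ ≤ (q : ℝ)⁻¹ := by
  have := (Padic.norm_le_pow_iff_norm_lt_pow_add_one x (-1)).2 (by simpa using h)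
  simpa using this

theorem norm_M {M : ℤ} (h1 : (q : ℤ) ∣ M) (h2 : ¬ ((q : ℤ) ^ 2 ∣ M)) :
    ‖(M : ℚ_[q])‖ = (q : ℝ)⁻¹ := by
  have hq : (1 : ℝ) < q := by exact_mod_cast (Fact.out : q.Prime).one_lt
  apply le_antisymm
  · exact norm_le_inv q (Padic.norm_intCast_lt_one_iff.2 h1)
  · rw [← Padic.norm_int_le_pow_iff_dvd] at h2
    have h3 := (Padic.norm_le_pow_iff_norm_lt_pow_add_one (M : ℚ_[q]) (-2)).not.1 (by
      simpa using h2)
    rw [not_lt] at h3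
    simpa using h3

theorem parity (Y : ℚ_[q]) : ‖Y‖ ^ 2 ≠ ((q : ℝ)⁻¹) ^ 3 := by
  have hq : (1 : ℝ) < q := by exact_mod_cast (Fact.out : q.Prime).one_lt
  intro h
  rcases eq_or_ne Y 0 with rfl | hY
  · rw [norm_zero] at h
    have : (0 : ℝ) < ((q : ℝ)⁻¹) ^ 3 := by positivity
    rw [← h] at this
    norm_num at this
  · rw [Padic.norm_eq_zpow_neg_valuation hY, ← zpow_natCast, ← zpow_mul, inv_pow,
      ← zpow_natCast, ← zpow_neg] at h
    have := zpow_right_injective₀ (by linarith) hq.ne' h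
    push_cast at this
    omega

end

section

variable {q : ℕ} [Fact q.Prime] {M : ℤ} (hM4 : M % 4 = 1) (hq2 : q ≠ 2)
  (hM : ‖(M : ℚ_[q])‖ = (q : ℝ)⁻¹)

include hM in
theorem M_lt : ‖(M : ℚ_[q])‖ < 1 := by
  have hq : (1 : ℝ) < q := by exact_mod_cast (Fact.out : q.Prime).one_lt
  rw [hM]
  exact inv_lt_one_of_one_lt₀ hq

include hM in
theorem M_pos : 0 < ‖(M : ℚ_[q])‖ := by
  have hq : (1 : ℝ) < q := by exact_mod_cast (Fact.out : q.Prime).one_lt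
  rw [hM]
  positivity

include hM in
theorem M_ne : (M : ℚ_[q]) ≠ 0 := by
  rw [← norm_pos_iff]
  exact M_pos hM

theorem K2 : ((2 : ℚ_[q])) ≠ 0 := two_ne_zero

include hq2 in
theorem norm2 : ‖(2 : ℚ_[q])‖ = 1 := by exact_mod_cast norm_two_pow q hq2 1

include hq2 in
theorem norm4 : ‖(4 : ℚ_[q])‖ = 1 := by exact_mod_cast norm_two_pow q hq2 2

include hq2 in
theorem norm16 : ‖(16 : ℚ_[q])‖ = 1 := by exact_mod_cast norm_two_pow q hq2 4

include hq2 in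
theorem norm128 : ‖(128 : ℚ_[q])‖ = 1 := by exact_mod_cast norm_two_pow q hq2 7

include hM4 hq2 hM in
theorem sing_of {x y : ℚ_[q]} (hE : ((WM M).map (Int.castRingHom ℚ_[q])).toAffine.Equation x y)
    (hX : ‖4 * (x - M)‖ < 1) : SingRed (WM M) q x y := by
  have hW := isWM q M hM4
  have e1 := hW.eqn hE
  set X := 4 * (x - (M : ℚ_[q])) with hXd
  set Y := 4 * (2 * y + x + 1) with hYd
  have hm := M_lt hM
  have hY : ‖Y‖ < 1 := by
    have h1 : ‖Y ^ 2‖ < 1 := by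
      rw [e1]
      have e : X ^ 3 + 13 * M * X ^ 2 + 128 * M ^ 2 * X = (X ^ 2 + 13 * M * X + 128 * M ^ 2) * X := by
        ring
      rw [e]
      have n13 : ‖(13 : ℚ_[q])‖ ≤ 1 := by exact_mod_cast nnat (K := ℚ_[q]) 13
      have n128 : ‖(128 : ℚ_[q])‖ ≤ 1 := by exact_mod_cast nnat (K := ℚ_[q]) 128
      exact lmul (nadd (nadd (npow hX.le 2) (nmul (nmul n13 hm.le) hX.le)) (nmul n128 (npow hm.le 2))) hX
    rw [norm_pow] at h1
    by_contra h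
    rw [not_lt] at h
    have := one_le_pow₀ h (n := 2)
    linarith
  have hx : ‖x - M‖ < 1 := by
    have h1 : ‖X‖ = ‖x - M‖ := by rw [hXd, norm_mul, norm4 hq2, one_mul]
    rw [← h1]
    exact hX
  have hy : ‖2 * y + x + 1‖ < 1 := by
    have h1 : ‖Y‖ = ‖2 * y + x + 1‖ := by rw [hYd, norm_mul, norm4 hq2, one_mul]
    rw [← h1]
    exact hY
  have hx1 : ‖x‖ ≤ 1 := by
    have : x = (x - M) + M := by ring
    rw [this]
    exact nadd hx.le hm.le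
  have hy1 : ‖y‖ ≤ 1 := by
    have h1 : ‖2 * y‖ = ‖y‖ := by rw [norm_mul, norm2 hq2, one_mul]
    rw [← h1]
    have : 2 * y = (2 * y + x + 1) - x - 1 := by ring
    rw [this]
    exact nsub (nsub hy.le hx1) norm_one.le
  refine ⟨hx1, hy1, ?_, ?_⟩
  · have e2 := hW.fx x y
    have h1 : ‖16 * (((WM M).map (Int.castRingHom ℚ_[q])).toAffine.a₁ * y - (3 * x ^ 2 + 2 *
      ((WM M).map (Int.castRingHom ℚ_[q])).toAffine.a₂ * x +
      ((WM M).map (Int.castRingHom ℚ_[q])).toAffine.a₄))‖ < 1 := by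
      rw [e2]
      have n26 : ‖(26 : ℚ_[q])‖ ≤ 1 := by exact_mod_cast nnat (K := ℚ_[q]) 26
      have n128 : ‖(128 : ℚ_[q])‖ ≤ 1 := by exact_mod_cast nnat (K := ℚ_[q]) 128
      have hm2 : ‖(M : ℚ_[q]) ^ 2‖ < 1 := by
        rw [pow_two]
        exact lmul hm.le hm
      have hX2 : ‖X ^ 2‖ < 1 := by
        rw [pow_two]
        exact lmul hX.le hX
      exact lsub (lmul n2 hY) (ladd (ladd (lmul n3 hX2) (lmul (nmul n26 hm.le) hX)) (lmul n128 hm2))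
    rw [norm_mul, norm16 hq2, one_mul] at h1
    exact h1
  · show ‖2 * y + (((1 : ℤ)) : ℚ_[q]) * x + (((1 : ℤ)) : ℚ_[q])‖ < 1
    rw [Int.cast_one, one_mul]
    exact hy

include hM4 hq2 hM in
theorem of_sing {x y : ℚ_[q]} (hE : ((WM M).map (Int.castRingHom ℚ_[q])).toAffine.Equation x y)
    (hs : SingRed (WM M) q x y) : ‖4 * (x - M)‖ < 1 := by
  have hW := isWM q M hM4
  have e1 := hW.eqn hE
  set X := 4 * (x - (M : ℚ_[q])) with hXd
  set Y := 4 * (2 * y + x + 1) with hYd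
  have hm := M_lt hM
  obtain ⟨hx, hy, -, hfy⟩ := hs
  have hfy' : ‖2 * y + x + 1‖ < 1 := by
    have : 2 * y + x + 1 = 2 * y + (((1 : ℤ)) : ℚ_[q]) * x + (((1 : ℤ)) : ℚ_[q]) := by
      rw [Int.cast_one, one_mul]
    rw [this]
    exact hfy
  have n4 : ‖(4 : ℚ_[q])‖ ≤ 1 := (norm4 hq2).le
  have hY : ‖Y‖ < 1 := lmul n4 hfy'
  have hX : ‖X‖ ≤ 1 := nmul n4 (nsub hx hm.le)
  have h3 : ‖X ^ 3‖ < 1 := by
    have e : X ^ 3 = Y * Y - (13 * X ^ 2 + 128 * M * X) * M := by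
      linear_combination -e1
    rw [e]
    have n13 : ‖(13 : ℚ_[q])‖ ≤ 1 := by exact_mod_cast nnat (K := ℚ_[q]) 13
    have n128 : ‖(128 : ℚ_[q])‖ ≤ 1 := by exact_mod_cast nnat (K := ℚ_[q]) 128
    exact lsub (lmul hY.le hY) (lmul (nadd (nmul n13 (npow hX 2)) (nmul (nmul n128 hm.le) hX)) hm)
  rw [norm_pow] at h3
  by_contra h
  rw [not_lt] at h
  have := one_le_pow₀ h (n := 3)
  linarith

include hM4 hq2 hM in
/-- the parameter of a point with singular reduction -/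
theorem par_of_sing {x y : ℚ_[q]}
    (hE : ((WM M).map (Int.castRingHom ℚ_[q])).toAffine.Equation x y)
    (hs : SingRed (WM M) q x y) : ∃ t : ℚ_[q], 4 * (x - M) = M * t ∧ ‖t‖ ≤ 1 ∧
      ‖t ^ 3 + 13 * t ^ 2 + 128 * t‖ < 1 := by
  have hX := of_sing hM4 hq2 hM hE hs
  have e1 := (isWM q M hM4).eqn hE
  have hm0 := M_ne hM
  have hmp := M_pos hM
  obtain ⟨t, ht⟩ : ∃ t : ℚ_[q], 4 * (x - M) = M * t :=
    ⟨4 * (x - M) / M, by rw [mul_div_cancel₀ _ hm0]⟩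
  have ht1 : ‖t‖ ≤ 1 := by
    have h1 := norm_le_inv q hX
    rw [ht, norm_mul, ← hM] at h1
    by_contra h
    rw [not_le] at h
    nlinarith
  refine ⟨t, ht, ht1, ?_⟩
  rw [ht] at e1
  have n13 : ‖(13 : ℚ_[q])‖ ≤ 1 := by exact_mod_cast nnat (K := ℚ_[q]) 13
  have n128 : ‖(128 : ℚ_[q])‖ ≤ 1 := by exact_mod_cast nnat (K := ℚ_[q]) 128
  have h2 : ‖t ^ 3 + 13 * t ^ 2 + 128 * t‖ ≤ 1 :=
    nadd (nadd (npow ht1 3) (nmul n13 (npow ht1 2))) (nmul n128 ht1)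
  refine lt_of_le_of_ne h2 fun h3 => ?_
  apply parity q (4 * (2 * y + x + 1))
  rw [← norm_pow, e1, ← hM]
  have e : ((M : ℚ_[q]) * t) ^ 3 + 13 * M * (M * t) ^ 2 + 128 * M ^ 2 * (M * t) =
    M ^ 3 * (t ^ 3 + 13 * t ^ 2 + 128 * t) := by ring
  rw [e, norm_mul, h3, mul_one, norm_pow]

include hM4 hq2 hM in
/-- the point of order two that corresponds to the root `r` -/
theorem Tex (hE0 : S_E0) {r : ℚ_[q]} (hr : r ^ 3 + 13 * r ^ 2 + 128 * r = 0)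
    (hr1 : ‖r‖ ≤ 1) (hr' : ‖3 * r ^ 2 + 26 * r + 128‖ = 1) :
    ∃ T : PtP (WM M) q, T + T = 0 ∧ T ∉ E0 (WM M) q ∧
      (∃ x y h, T = .some x y h ∧ 4 * (x - M) = M * r) ∧
      ∀ (x y : ℚ_[q]) h (t : ℚ_[q]), 4 * (x - M) = M * t → ‖t‖ ≤ 1 →
        (‖t - r‖ < 1 → .some x y h + T ∈ E0 (WM M) q) ∧
        (‖t - r‖ = 1 → .some x y h + T ∉ E0 (WM M) q) := by
  have hW := isWM q M hM4
  have hm0 := M_ne hM
  have hmp := M_pos hM
  have hml := M_lt hM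
  have hr0 : 3 * r ^ 2 + 26 * r + 128 ≠ 0 := by
    rw [← norm_pos_iff, hr']
    norm_num
  have hT := hW.nonsing K2 hm0 hr hr0
  have e1 : 2 * (-((M : ℚ_[q]) * r / 4 + M + 1) / 2) + (M * r / 4 + M) + 1 = 0 := by
    ring
  have e2 : 4 * (((M : ℚ_[q]) * r / 4 + M) - M) = M * r := by
    ring
  set xT := (M : ℚ_[q]) * r / 4 + M with hxT
  set yT := -(xT + 1) / 2 with hyT
  have hTs : SingRed (WM M) q xT yT := by
    apply sing_of hM4 hq2 hM hT.1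
    rw [e2]
    exact lmul' hml hr1
  refine ⟨.some xT yT hT, hW.two_tors hT e1, ?_, ⟨xT, yT, hT, rfl, e2⟩, ?_⟩
  · intro h
    exact (hE0 (WM M) q _).1 h xT yT hT rfl hTs
  · intro x y hP t ht ht1
    rcases eq_or_ne x xT with hx | hx
    · have htr : t = r := by
        apply mul_left_cancel₀ hm0
        rw [← ht, ← e2, hx]
      constructor
      · intro _
        subst hx
        have := hW.eq_of_x K2 hT e1 hP
        subst this
        rw [hW.two_tors hT e1]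
        exact AddSubgroup.zero_mem _
      · intro h
        rw [htr, sub_self, norm_zero] at h
        norm_num at h
    · obtain ⟨x3, y3, h3, e3, e4⟩ := hW.add_T hP hT e1 hx K2
      rw [e3]
      rw [ht, e2] at e4
      have htr0 : t - r ≠ 0 := by
        intro h
        apply hx
        have : (4 : ℚ_[q]) * (x - M) = 4 * (xT - M) := by rw [ht, e2, sub_eq_zero.1 h]
        have h4 : (4 : ℚ_[q]) ≠ 0 := by norm_num
        have := mul_left_cancel₀ h4 this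
        linear_combination this
      have e5 : (4 * (x3 - M) - M * r) * (t - r) = M * (3 * r ^ 2 + 26 * r + 128) := by
        apply mul_left_cancel₀ hm0
        linear_combination e4
      have e6 : ‖4 * (x3 - M) - M * r‖ * ‖t - r‖ = (q : ℝ)⁻¹ := by
        rw [← norm_mul, e5, norm_mul, hr', mul_one, hM]
      constructor
      · intro h
        apply AddSubgroup.subset_closure
        intro x' y' h' he
        obtain ⟨rfl, rfl⟩ := Affine.Point.some.inj he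
        intro hs
        have h5 := of_sing hM4 hq2 hM h3.1 hs
        have h6 : ‖4 * (x3 - M) - M * r‖ < 1 := lsub h5 (lmul' hml hr1)
        have h7 := norm_le_inv q h
        have h8 : 0 < ‖t - r‖ := norm_pos_iff.2 htr0
        have h9 : ‖4 * (x3 - M) - M * r‖ * ‖t - r‖ < 1 * ‖t - r‖ :=
          mul_lt_mul_of_pos_right h6 h8
        rw [e6, one_mul] at h9
        exact absurd h7 (not_le.2 h9)
      · intro h h'
        rw [h, mul_one, ← hM] at e6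
        apply (hE0 (WM M) q _).1 h' x3 y3 h3 rfl
        apply sing_of hM4 hq2 hM h3.1
        have : 4 * (x3 - (M : ℚ_[q])) = (4 * (x3 - M) - M * r) + M * r := by ring
        rw [this]
        exact ladd (by rw [e6]; exact hml) (lmul' hml hr1)

end

theorem t_TIN : S_TIN := by
  intro hE0 M q _ hM4 hq2 hq7 h1 h2 hsq
  have hM := norm_M q h1 h2
  have r0 : (0 : ℚ_[q]) ^ 3 + 13 * 0 ^ 2 + 128 * 0 = 0 := by norm_num
  have r0' : ‖3 * (0 : ℚ_[q]) ^ 2 + 26 * 0 + 128‖ = 1 := by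
    have : 3 * (0 : ℚ_[q]) ^ 2 + 26 * 0 + 128 = 128 := by norm_num
    rw [this, norm128 hq2]
  obtain ⟨T, hTT, hTn, -, hT⟩ := Tex hM4 hq2 hM hE0 r0 (by rw [norm_zero]; norm_num) r0'
  rw [tam, AddSubgroup.index_eq_two_iff_exists_notMem_and]
  refine ⟨T, hTn, fun P => ?_⟩
  by_cases hP : P ∈ E0 (WM M) q
  · exact Or.inr hP
  left
  rw [hE0] at hP
  push Not at hP
  obtain ⟨x, y, h, rfl, hs⟩ := hP
  obtain ⟨t, ht, ht1, ht2⟩ := par_of_sing hM4 hq2 hM h.1 hs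
  refine (hT x y h t ht ht1).1 ?_
  rw [sub_zero]
  by_contra hcon
  apply hsq
  have ht' : ‖t‖ = 1 := le_antisymm ht1 (not_lt.1 hcon)
  have h3 : ‖t ^ 2 + 13 * t + 128‖ < 1 := by
    have e : t ^ 3 + 13 * t ^ 2 + 128 * t = (t ^ 2 + 13 * t + 128) * t := by ring
    rw [e, norm_mul, ht', mul_one] at ht2
    exact ht2
  obtain ⟨τ, rfl⟩ : ∃ τ : ℤ_[q], (τ : ℚ_[q]) = t := ⟨⟨t, ht1⟩, rfl⟩
  have h4 : PadicInt.toZMod (τ ^ 2 + 13 * τ + 128) = 0 := by
    rw [toZMod_eq_zero, PadicInt.norm_def]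
    push_cast
    exact h3
  simp only [map_add, map_mul, map_pow, map_ofNat] at h4
  have h7 : (7 : ZMod q) ≠ 0 := by
    intro h
    have : ((7 : ℕ) : ZMod q) = 0 := by exact_mod_cast h
    rw [ZMod.natCast_eq_zero_iff] at this
    exact hq7 ((Nat.prime_dvd_prime_iff_eq Fact.out (by norm_num)).1 this)
  refine ⟨(2 * PadicInt.toZMod τ + 13) / 7, ?_⟩
  rw [div_mul_div_comm, eq_div_iff (mul_ne_zero h7 h7)]
  linear_combination (-4) * h4

theorem sqrt7 {q : ℕ} [Fact q.Prime] (hq2 : q ≠ 2) (hq7 : q ≠ 7) (hsq : IsSquare (-7 : ZMod q)) :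
    ∃ δ : ℚ_[q], δ ^ 2 = -7 ∧ ‖δ‖ = 1 := by
  have c7 : ((7 : ℤ_[q]) : ℚ_[q]) = 7 := rfl
  have n7 : ‖(7 : ℚ_[q])‖ = 1 := by
    have : ‖((7 : ℕ) : ℚ_[q])‖ = 1 :=
      norm_nat_eq_one q ((Nat.coprime_primes Fact.out (by norm_num)).2 hq7)
    exact_mod_cast this
  obtain ⟨s, hs⟩ := hsq
  obtain ⟨n, rfl⟩ := ZMod.natCast_zmod_surjective s
  have h1 : ‖((n : ℤ_[q]) ^ 2 + 7)‖ < 1 := by
    rw [← toZMod_eq_zero]
    simp only [map_add, map_pow, map_natCast, map_ofNat]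
    linear_combination -hs
  have h2 : ‖(2 * (n : ℤ_[q]))‖ = 1 := by
    have e2 : ‖(2 : ℤ_[q])‖ = 1 := by
      rw [PadicInt.norm_def]
      exact_mod_cast norm2 hq2
    have e7 : ‖(7 : ℤ_[q])‖ = 1 := by
      rw [PadicInt.norm_def]
      exact_mod_cast n7
    rw [norm_mul, e2, one_mul]
    refine le_antisymm (PadicInt.norm_le_one _) (not_lt.1 fun h => ?_)
    have h3 : ‖(7 : ℚ_[q])‖ < 1 := by
      have : (7 : ℚ_[q]) = (((n : ℤ_[q]) ^ 2 + 7 : ℤ_[q]) : ℚ_[q]) - n * n := by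
        rw [PadicInt.coe_add, PadicInt.coe_pow, PadicInt.coe_natCast, c7]
        ring
      rw [this]
      rw [PadicInt.norm_def] at h1 h
      exact lsub h1 (lmul h.le h)
    rw [n7] at h3
    exact lt_irrefl _ h3
  obtain ⟨z, hz, -⟩ := hensels_lemma (p := q) (R := ℤ) (F := (Polynomial.X ^ 2 + Polynomial.C 7))
    (a := (n : ℤ_[q])) (by
      simp only [Polynomial.derivative_add, Polynomial.derivative_X_pow, Polynomial.derivative_C,
        map_add, map_mul, map_pow, Polynomial.aeval_X, Polynomial.aeval_C, add_zero]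
      have e1 : ((algebraMap ℤ ℤ_[q]) 7) = 7 := by norm_num
      rw [e1]
      have e2 : ‖(algebraMap ℤ ℤ_[q]) ((2 : ℕ) : ℤ) * (n : ℤ_[q]) ^ (2 - 1)‖ = 1 := by
        rw [← h2]
        norm_num
      norm_num at e2 ⊢
      rw [e2]
      norm_num
      exact h1)
  simp only [map_add, map_pow, Polynomial.aeval_X, Polynomial.aeval_C] at hz
  have e1 : ((algebraMap ℤ ℤ_[q]) 7) = 7 := by norm_num
  rw [e1] at hz
  have hz2 : (z : ℚ_[q]) ^ 2 = -7 := by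
    have : ((z ^ 2 + 7 : ℤ_[q]) : ℚ_[q]) = 0 := by rw [hz]; rfl
    rw [PadicInt.coe_add, PadicInt.coe_pow, c7] at this
    linear_combination this
  refine ⟨z, hz2, ?_⟩
  have h3 := congrArg norm hz2
  rw [norm_pow, norm_neg, n7] at h3
  exact (pow_eq_one_iff_of_nonneg (norm_nonneg _) two_ne_zero).1 h3

theorem t_TSP : S_TSP := by
  intro hE0 M q _ hM4 hq2 hq7 h1 h2 hsq
  have hM := norm_M q h1 h2
  obtain ⟨δ, hδ, hδ1⟩ := sqrt7 hq2 hq7 hsq
  have n7 : ‖(7 : ℚ_[q])‖ = 1 := by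
    have : ‖((7 : ℕ) : ℚ_[q])‖ = 1 :=
      norm_nat_eq_one q ((Nat.coprime_primes Fact.out (by norm_num)).2 hq7)
    exact_mod_cast this
  have n13 : ‖(13 : ℚ_[q])‖ ≤ 1 := by exact_mod_cast nnat (K := ℚ_[q]) 13
  have n2i : ‖(2 : ℚ_[q])⁻¹‖ ≤ 1 := by rw [norm_inv, norm2 hq2, inv_one]
  obtain ⟨r1, hr1⟩ : ∃ r : ℚ_[q], r = (-13 + 7 * δ) * 2⁻¹ := ⟨_, rfl⟩
  obtain ⟨r2, hr2⟩ : ∃ r : ℚ_[q], r = (-13 - 7 * δ) * 2⁻¹ := ⟨_, rfl⟩
  have i1 : ‖r1‖ ≤ 1 := by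
    rw [hr1]
    exact nmul (nadd (nneg n13) (nmul n7.le hδ1.le)) n2i
  have i2 : ‖r2‖ ≤ 1 := by
    rw [hr2]
    exact nmul (nsub (nneg n13) (nmul n7.le hδ1.le)) n2i
  have hp : r1 * r2 = 128 := by
    rw [hr1, hr2]
    linear_combination (-49 / 4) * hδ
  have hs : r1 + r2 = -13 := by
    rw [hr1, hr2]
    ring
  have hd : r1 - r2 = 7 * δ := by
    rw [hr1, hr2]
    ring
  have nd : ‖r1 - r2‖ = 1 := by rw [hd, norm_mul, n7, hδ1, one_mul]
  have nd' : ‖r2 - r1‖ = 1 := by rw [← norm_neg, neg_sub, nd]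
  have np : ‖r1‖ * ‖r2‖ = 1 := by rw [← norm_mul, hp, norm128 hq2]
  have j1 : ‖r1‖ = 1 := le_antisymm i1 (by nlinarith [norm_nonneg r1, norm_nonneg r2])
  have j2 : ‖r2‖ = 1 := le_antisymm i2 (by nlinarith [norm_nonneg r1, norm_nonneg r2])
  have q1 : r1 ^ 3 + 13 * r1 ^ 2 + 128 * r1 = 0 := by
    linear_combination (-r1) * hp + r1 ^ 2 * hs
  have q2 : r2 ^ 3 + 13 * r2 ^ 2 + 128 * r2 = 0 := by
    linear_combination (-r2) * hp + r2 ^ 2 * hs
  have q0 : (0 : ℚ_[q]) ^ 3 + 13 * 0 ^ 2 + 128 * 0 = 0 := by norm_num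
  have p0 : ‖3 * (0 : ℚ_[q]) ^ 2 + 26 * 0 + 128‖ = 1 := by
    have : 3 * (0 : ℚ_[q]) ^ 2 + 26 * 0 + 128 = 128 := by norm_num
    rw [this, norm128 hq2]
  have p1 : ‖3 * r1 ^ 2 + 26 * r1 + 128‖ = 1 := by
    have : 3 * r1 ^ 2 + 26 * r1 + 128 = r1 * (r1 - r2) := by
      linear_combination 2 * r1 * hs - hp
    rw [this, norm_mul, j1, nd, one_mul]
  have p2 : ‖3 * r2 ^ 2 + 26 * r2 + 128‖ = 1 := by
    have : 3 * r2 ^ 2 + 26 * r2 + 128 = r2 * (r2 - r1) := by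
      linear_combination 2 * r2 * hs - hp
    rw [this, norm_mul, j2, nd', one_mul]
  obtain ⟨T0, a0, b0, ⟨x0, y0, g0, c0, d0⟩, e0⟩ :=
    Tex hM4 hq2 hM hE0 q0 (by rw [norm_zero]; norm_num) p0
  obtain ⟨T1, a1, b1, ⟨x1, y1, g1, c1, d1⟩, e1⟩ := Tex hM4 hq2 hM hE0 q1 i1 p1
  obtain ⟨T2, a2, b2, ⟨x2, y2, g2, c2, d2⟩, e2⟩ := Tex hM4 hq2 hM hE0 q2 i2 p2
  have m01 : T0 + T1 ∉ E0 (WM M) q := by
    rw [c0]
    refine (e1 x0 y0 g0 0 d0 (by rw [norm_zero]; norm_num)).2 ?_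
    rw [zero_sub, norm_neg, j1]
  have m02 : T0 + T2 ∉ E0 (WM M) q := by
    rw [c0]
    refine (e2 x0 y0 g0 0 d0 (by rw [norm_zero]; norm_num)).2 ?_
    rw [zero_sub, norm_neg, j2]
  have m12 : T1 + T2 ∉ E0 (WM M) q := by
    rw [c1]
    exact (e2 x1 y1 g1 r1 d1 i1).2 nd
  have m10 : T1 + T0 ∉ E0 (WM M) q := by rwa [add_comm]
  have m20 : T2 + T0 ∉ E0 (WM M) q := by rwa [add_comm]
  have m21 : T2 + T1 ∉ E0 (WM M) q := by rwa [add_comm]
  rw [tam]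
  apply index_of (E0 (WM M) q) ![0, T0, T1, T2]
  · intro i
    fin_cases i
    · exact add_zero _
    · exact a0
    · exact a1
    · exact a2
  · intro P
    by_cases hP : P ∈ E0 (WM M) q
    · exact ⟨0, by simpa using hP⟩
    rw [hE0] at hP
    push Not at hP
    obtain ⟨x, y, h, rfl, hs'⟩ := hP
    obtain ⟨t, ht, ht1, ht2⟩ := par_of_sing hM4 hq2 hM h.1 hs'
    have hor : ‖t - 0‖ < 1 ∨ ‖t - r1‖ < 1 ∨ ‖t - r2‖ < 1 := by
      by_contra hcon
      rw [not_or, not_or, not_lt, not_lt, not_lt] at hcon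
      obtain ⟨g3, g4, g5⟩ := hcon
      have : t ^ 3 + 13 * t ^ 2 + 128 * t = (t - 0) * ((t - r1) * (t - r2)) := by
        linear_combination t ^ 2 * hs - t * hp
      rw [this, norm_mul, norm_mul] at ht2
      have h5 : 1 ≤ ‖t - r1‖ * ‖t - r2‖ := one_le_mul_of_one_le_of_one_le g4 g5
      have h6 := one_le_mul_of_one_le_of_one_le g3 h5
      linarith
    rcases hor with h3 | h3 | h3
    · exact ⟨1, (e0 x y h t ht ht1).1 h3⟩
    · exact ⟨2, (e1 x y h t ht ht1).1 h3⟩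
    · exact ⟨3, (e2 x y h t ht ht1).1 h3⟩
  · intro i j hij
    fin_cases i <;> fin_cases j <;> first | rfl | (exfalso; simp at hij; first | exact b0 hij | exact b1 hij | exact b2 hij | exact m01 hij | exact m02 hij | exact m12 hij | exact m10 hij | exact m20 hij | exact m21 hij)

end Pool.Agent.Y809.BSD14
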