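import Pool.Agent.Y809.BSD14.E0

/-!
Good reduction: the Tamagawa number is one.
-/

set_option autoImplicit false
set_option linter.all false

namespace Pool.Agent.Y809.BSD14

open scoped Classical

open Pool.Agent.Y700 WeierstrassCurve

theorem toZMod_eq_zero {p : ℕ} [Fact p.Prime] {x : ℤ_[p]} :
    PadicInt.toZMod x = 0 ↔ ‖x‖ < 1 := by
  rw [← RingHom.mem_ker, PadicInt.ker_toZMod, IsLocalRing.mem_maximalIdeal,
    PadicInt.mem_nonunits]

theorem eq_of_equation {W : WeierstrassCurve ℤ} {p : ℕ} [Fact p.Prime] {x y : ℚ_[p]}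
    (h : (W.map (Int.castRingHom ℚ_[p])).toAffine.Equation x y) :
    y ^ 2 + W.a₁ * x * y + W.a₃ * y = x ^ 3 + W.a₂ * x ^ 2 + W.a₄ * x + W.a₆ := by
  rw [Affine.equation_iff] at h
  exact h

theorem not_sing_of_good (W : WeierstrassCurve ℤ) (p : ℕ) [Fact p.Prime] (hd : ¬ (p : ℤ) ∣ W.Δ)
    (x y : ℚ_[p]) (hE : (W.map (Int.castRingHom ℚ_[p])).toAffine.Equation x y) :
    ¬ SingRed W p x y := by
  rintro ⟨hx, hy, hfx, hfy⟩
  have hE' := eq_of_equation hE
  obtain ⟨X, rfl⟩ : ∃ X : ℤ_[p], (X : ℚ_[p]) = x := ⟨⟨x, hx⟩, rfl⟩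
  obtain ⟨Y, rfl⟩ : ∃ Y : ℤ_[p], (Y : ℚ_[p]) = y := ⟨⟨y, hy⟩, rfl⟩
  have e1 : Y ^ 2 + W.a₁ * X * Y + W.a₃ * Y = X ^ 3 + W.a₂ * X ^ 2 + W.a₄ * X + W.a₆ := by
    apply PadicInt.ext
    push_cast
    exact hE'
  have e2 : PadicInt.toZMod (W.a₁ * Y - (3 * X ^ 2 + 2 * W.a₂ * X + W.a₄) : ℤ_[p]) = 0 := by
    rw [toZMod_eq_zero, PadicInt.norm_def]
    push_cast
    exact hfx
  have e3 : PadicInt.toZMod (2 * Y + W.a₁ * X + W.a₃ : ℤ_[p]) = 0 := by
    rw [toZMod_eq_zero, PadicInt.norm_def]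
    push_cast
    exact hfy
  have hD : (W.map (Int.castRingHom (ZMod p))).Δ ≠ 0 := by
    rw [WeierstrassCurve.map_Δ]
    intro h
    exact hd ((ZMod.intCast_zmod_eq_zero_iff_dvd _ _).1 (by exact_mod_cast h))
  have hEq : (W.map (Int.castRingHom (ZMod p))).toAffine.Equation (PadicInt.toZMod X)
      (PadicInt.toZMod Y) := by
    rw [Affine.equation_iff]
    have := congrArg (PadicInt.toZMod (p := p)) e1
    simp only [map_add, map_mul, map_pow, map_intCast] at this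
    exact this
  rw [Affine.equation_iff_nonsingular_of_Δ_ne_zero (W := (W.map (Int.castRingHom (ZMod p))).toAffine) hD,
    Affine.nonsingular_iff] at hEq
  obtain ⟨-, h | h⟩ := hEq
  · apply h
    simp only [map_sub, map_add, map_mul, map_pow, map_intCast, map_ofNat] at e2
    show (W.a₁ : ZMod p) * _ = 3 * _ ^ 2 + 2 * (W.a₂ : ZMod p) * _ + (W.a₄ : ZMod p)
    linear_combination e2
  · apply h
    simp only [map_add, map_mul, map_intCast, map_ofNat] at e3
    show _ = -_ - (W.a₁ : ZMod p) * _ - (W.a₃ : ZMod p)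
    linear_combination e3

theorem t_TGOOD : S_TGOOD := by
  intro W p _ hd
  rw [tam, AddSubgroup.index_eq_one, eq_top_iff]
  intro P _
  apply AddSubgroup.subset_closure
  intro x y h he
  exact not_sing_of_good W p hd x y h.1

end Pool.Agent.Y809.BSD14
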