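import Pool.Agent.Y809.BSD14.Tam1

/-!
The index at the primes that divide the twist.
-/

set_option autoImplicit false
set_option linter.all false

namespace Pool.Agent.Y809.BSD14

open scoped Classical

open Pool.Agent.Y700 WeierstrassCurve

theorem index_of {G : Type} [AddCommGroup G] (H : AddSubgroup G) {n : ℕ} (T : Fin n → G)
    (h2 : ∀ i, T i + T i = 0) (hs : ∀ P, ∃ i, P + T i ∈ H)
    (hi : ∀ i j, T i + T j ∈ H → i = j) : H.index = n := by
  have h2' : ∀ i, - T i = T i := fun i => neg_eq_of_add_eq_zero_left (h2 i)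
  rw [AddSubgroup.index, ← Nat.card_eq_of_bijective (α := Fin n)
    (fun i => (QuotientAddGroup.mk (T i) : G ⧸ H)), Nat.card_eq_fintype_card, Fintype.card_fin]
  constructor
  · intro i j hij
    simp only at hij
    rw [QuotientAddGroup.eq, h2'] at hij
    exact hi i j hij
  · intro q
    induction q using QuotientAddGroup.induction_on with
    | H P =>
      obtain ⟨i, h⟩ := hs P
      refine ⟨i, ?_⟩
      simp only
      rw [QuotientAddGroup.eq, h2', add_comm]
      exact h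

section general

variable {K : Type} [Field K] [DecidableEq K]

/-- `W` is the twist of `X_0(14)` by `m` -/
structure IsWM (W : WeierstrassCurve.Affine K) (m : K) : Prop where
  a1 : W.a₁ = 1
  a3 : W.a₃ = 1
  a2 : 4 * W.a₂ = m - 1
  a4 : 2 * W.a₄ = 9 * m ^ 2 - 1
  a6 : 4 * W.a₆ = -(23 * m ^ 3 + 1)

variable {W : WeierstrassCurve.Affine K} {m : K}

theorem IsWM.eqn (h : IsWM W m) {x y : K} (hE : W.Equation x y) :
    (4 * (2 * y + x + 1)) ^ 2 = (4 * (x - m)) ^ 3 + 13 * m * (4 * (x - m)) ^ 2 +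
      128 * m ^ 2 * (4 * (x - m)) := by
  rw [Affine.equation_iff, h.a1, h.a3] at hE
  linear_combination 64 * hE + 16 * x ^ 2 * h.a2 + 32 * x * h.a4 + 16 * h.a6

theorem IsWM.eqn' (h : IsWM W m) (h2 : (2 : K) ≠ 0) {x y : K}
    (hE : (4 * (2 * y + x + 1)) ^ 2 = (4 * (x - m)) ^ 3 + 13 * m * (4 * (x - m)) ^ 2 +
      128 * m ^ 2 * (4 * (x - m))) : W.Equation x y := by
  rw [Affine.equation_iff, h.a1, h.a3]
  have h64 : (64 : K) ≠ 0 := by
    have : (64 : K) = 2 ^ 6 := by norm_num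
    rw [this]
    exact pow_ne_zero _ h2
  apply mul_left_cancel₀ h64
  linear_combination hE - 16 * x ^ 2 * h.a2 - 32 * x * h.a4 - 16 * h.a6

theorem IsWM.fx (h : IsWM W m) (x y : K) : 16 * (W.a₁ * y - (3 * x ^ 2 + 2 * W.a₂ * x + W.a₄)) =
    2 * (4 * (2 * y + x + 1)) - (3 * (4 * (x - m)) ^ 2 + 26 * m * (4 * (x - m)) + 128 * m ^ 2) := by
  rw [h.a1]
  linear_combination (-8 * x) * h.a2 - 8 * h.a4

/-- the point of order two with `X = m r` -/
theorem IsWM.nonsing (h : IsWM W m) (h2 : (2 : K) ≠ 0) (hm : m ≠ 0) {r : K}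
    (hr : r ^ 3 + 13 * r ^ 2 + 128 * r = 0) (hr' : 3 * r ^ 2 + 26 * r + 128 ≠ 0) :
    W.Nonsingular (m * r / 4 + m) (-(m * r / 4 + m + 1) / 2) := by
  have h4 : (4 : K) ≠ 0 := by
    have : (4 : K) = 2 ^ 2 := by norm_num
    rw [this]
    exact pow_ne_zero _ h2
  have e1 : 4 * (2 * (-(m * r / 4 + m + 1) / 2) + (m * r / 4 + m) + 1) = 0 := by
    field_simp
    ring
  have e2 : 4 * ((m * r / 4 + m) - m) = m * r := by
    field_simp
    ring
  rw [Affine.nonsingular_iff]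
  constructor
  · apply h.eqn' h2
    rw [e1, e2]
    linear_combination (-m ^ 3) * hr
  · left
    intro he
    have := h.fx (m * r / 4 + m) (-(m * r / 4 + m + 1) / 2)
    rw [e1, e2, he, sub_self, mul_zero] at this
    have h5 : m ^ 2 * (3 * r ^ 2 + 26 * r + 128) = 0 := by linear_combination this
    rcases mul_eq_zero.1 h5 with h6 | h6
    · exact hm (pow_eq_zero_iff (two_ne_zero) |>.1 h6)
    · exact hr' h6

theorem IsWM.two_tors (h : IsWM W m) {x y : K} (hT : W.Nonsingular x y) (hy : 2 * y + x + 1 = 0) :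
    (Affine.Point.some x y hT : W.Point) + Affine.Point.some x y hT = 0 := by
  apply Affine.Point.add_self_of_Y_eq
  rw [Affine.negY, h.a1, h.a3]
  linear_combination hy

theorem IsWM.eq_of_x (h : IsWM W m) (h2 : (2 : K) ≠ 0) {x y y' : K} (hT : W.Nonsingular x y)
    (hy : 2 * y + x + 1 = 0) (hP : W.Nonsingular x y') : y' = y := by
  have e1 := h.eqn hT.1
  have e2 := h.eqn hP.1
  rw [← e1, hy] at e2
  have h4 : (4 : K) ≠ 0 := by
    have : (4 : K) = 2 ^ 2 := by norm_num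
    rw [this]
    exact pow_ne_zero _ h2
  have e3 : 4 * (2 * y' + x + 1) = 0 := by
    have : (4 * (2 * y' + x + 1)) ^ 2 = 0 := by rw [e2]; ring
    exact pow_eq_zero_iff (two_ne_zero) |>.1 this
  rcases mul_eq_zero.1 e3 with h6 | h6
  · exact absurd h6 h4
  · apply mul_left_cancel₀ h2
    linear_combination h6 - hy

theorem IsWM.add_T (h : IsWM W m) {x y xT yT : K} (hP : W.Nonsingular x y)
    (hT : W.Nonsingular xT yT) (hy : 2 * yT + xT + 1 = 0) (hx : x ≠ xT) (h2 : (2 : K) ≠ 0) :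
    ∃ (x3 y3 : K) (h3 : W.Nonsingular x3 y3),
      (Affine.Point.some x y hP : W.Point) + Affine.Point.some xT yT hT =
        Affine.Point.some x3 y3 h3 ∧
      (4 * (x3 - m) - 4 * (xT - m)) * (4 * (x - m) - 4 * (xT - m)) =
        3 * (4 * (xT - m)) ^ 2 + 26 * m * (4 * (xT - m)) + 128 * m ^ 2 := by
  have hxy : ¬(x = xT ∧ y = W.negY xT yT) := fun hh => hx hh.1
  refine ⟨_, _, Affine.nonsingular_add hP hT hxy, Affine.Point.add_some hxy, ?_⟩
  set l := W.slope x xT y yT with hl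
  have h0 : x - xT ≠ 0 := sub_ne_zero.2 hx
  have hl2 : l = (y - yT) / (x - xT) := Affine.slope_of_X_ne hx
  have hl3 : l * (x - xT) = y - yT := by rw [hl2, div_mul_cancel₀ _ h0]
  rw [Affine.addX, h.a1]
  obtain ⟨L, hL⟩ : ∃ L : K, L = 2 * l + 1 := ⟨_, rfl⟩
  obtain ⟨X, hX⟩ : ∃ X : K, X = 4 * (x - m) := ⟨_, rfl⟩
  obtain ⟨e, he⟩ : ∃ e : K, e = 4 * (xT - m) := ⟨_, rfl⟩
  obtain ⟨Y, hY⟩ : ∃ Y : K, Y = 4 * (2 * y + x + 1) := ⟨_, rfl⟩
  have hLX : L * (X - e) = Y := by
    rw [hL, hX, he, hY]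
    linear_combination 8 * hl3 - 4 * hy
  have e1 := h.eqn hP.1
  have e2 := h.eqn hT.1
  rw [← hY, ← hX] at e1
  rw [hy, mul_zero, ← he] at e2
  have hXe : X - e ≠ 0 := by
    rw [hX, he]
    have : 4 * (x - m) - 4 * (xT - m) = 2 ^ 2 * (x - xT) := by ring
    rw [this]
    exact mul_ne_zero (pow_ne_zero _ h2) h0
  have e3 : L ^ 2 * (X - e) = X ^ 2 + (13 * m + e) * X + (e ^ 2 + 13 * m * e + 128 * m ^ 2) := by
    apply mul_right_cancel₀ hXe
    rw [← hLX] at e1
    linear_combination e1 - e2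
  rw [← hX, ← he]
  have e4 : 4 * (l ^ 2 + 1 * l - W.a₂ - x - xT - m) = L ^ 2 - 13 * m - X - e := by
    rw [hL, hX, he]
    linear_combination -h.a2
  rw [e4]
  linear_combination e3

end general

end Pool.Agent.Y809.BSD14
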